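import Mathlib

/-!
# Definitions used in the statement for MP_e7684b_al
-/

namespace Pool.Agent.MP_e7684b_al

universe u

/-- The algebra `A` satisfies all the identities `p = 0` with `p ∈ S`, where the elements of `S`
are nonassociative polynomials over `F` in the variables `x_0, x_1, x_2, …`: for every choice `v`
of values of the variables in `A`, the value of `p` is zero. -/
def Models (F : Type u) [Field F] (S : Set (FreeNonUnitalNonAssocAlgebra F ℕ))
    (A : Type u) [NonUnitalNonAssocRing A] [Module F A] [IsScalarTower F A A]
    [SMulCommClass F A A] : Prop :=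
  ∀ p ∈ S, ∀ v : ℕ → A, FreeNonUnitalNonAssocAlgebra.lift F v p = 0

/-- The derived series of an algebra: `derivedSer F A 0 = A`, and `derivedSer F A (n + 1)` is the
subspace spanned by the products of two elements of `derivedSer F A n`. In the numbering of the
problem, `derivedSer F A n` is `A^(n+1)`. -/
def derivedSer (F : Type u) [Field F] (A : Type u) [NonUnitalNonAssocRing A] [Module F A] :
    ℕ → Submodule F A
  | 0 => ⊤
  | n + 1 => Submodule.span F
      {z | ∃ x ∈ derivedSer F A n, ∃ y ∈ derivedSer F A n, z = x * y}

end Pool.Agent.MP_e7684b_al
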