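import Mathlib
import Pool.Agent.Lib.MP_e7684b_al.Defs

section

section

/-!
# Trilinear forms with the skew property

Auxiliary file for MP_e7684b_al.
-/

namespace Pool.Agent.MP_e7684b_al

section Theta

variable {F E U : Type*} [Field F] [AddCommGroup E] [Module F E] [AddCommGroup U] [Module F U]

/-- A symmetric trilinear form `T` on `U` which is skew with respect to the operators `act l`. -/
structure Good (act : E →ₗ[F] U →ₗ[F] U) (T : U → U → U → F) : Prop where
  add1 : ∀ a a' b c, T (a + a') b c = T a b c + T a' b c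
  smul1 : ∀ (r : F) a b c, T (r • a) b c = r * T a b c
  sym12 : ∀ a b c, T a b c = T b a c
  sym23 : ∀ a b c, T a b c = T a c b
  skew : ∀ l m a b c, T (act l a) (act m b) c = - T (act m a) (act l b) c

namespace Good

variable {act : E →ₗ[F] U →ₗ[F] U} {T : U → U → U → F}

theorem neg1 (h : Good act T) (a b c : U) : T (-a) b c = - T a b c := by
  have := h.smul1 (-1) a b c
  simpa using this

theorem add2 (h : Good act T) (a b b' c : U) : T a (b + b') c = T a b c + T a b' c := by
  rw [h.sym12, h.add1, h.sym12 b, h.sym12 b']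

theorem smul2 (h : Good act T) (r : F) (a b c : U) : T a (r • b) c = r * T a b c := by
  rw [h.sym12, h.smul1, h.sym12 b]

theorem neg2 (h : Good act T) (a b c : U) : T a (-b) c = - T a b c := by
  rw [h.sym12, h.neg1, h.sym12 b]

theorem add3 (h : Good act T) (a b c c' : U) : T a b (c + c') = T a b c + T a b c' := by
  rw [h.sym23, h.add2, h.sym23 a c, h.sym23 a c']

theorem smul3 (h : Good act T) (r : F) (a b c : U) : T a b (r • c) = r * T a b c := by
  rw [h.sym23, h.smul2, h.sym23 a c]

theorem neg3 (h : Good act T) (a b c : U) : T a b (-c) = - T a b c := by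
  rw [h.sym23, h.neg2, h.sym23 a c]

theorem sym13 (h : Good act T) (a b c : U) : T a b c = T c b a := by
  rw [h.sym12, h.sym23, h.sym12]

theorem sw13 (h : Good act T) (l m : E) (x y z : U) :
    T (act l x) (act m y) z = - T (act m x) (act l y) z := h.skew l m x y z

theorem sw15 (h : Good act T) (l m : E) (x y z : U) :
    T (act l x) y (act m z) = - T (act m x) y (act l z) := by
  rw [h.sym23, h.skew, h.sym23 _ (act l z)]

theorem sw35 (h : Good act T) (l m : E) (x y z : U) :
    T x (act l y) (act m z) = - T x (act m y) (act l z) := by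
  rw [h.sym12, h.sw15, h.sym12 x]

variable (hanti : ∀ a b u, act a (act b u) = - act b (act a u))

include hanti

theorem sw12 (h : Good act T) (l m : E) (x y z : U) :
    T (act l (act m x)) y z = - T (act m (act l x)) y z := by
  rw [hanti, h.neg1]

theorem sw34 (h : Good act T) (l m : E) (x y z : U) :
    T x (act l (act m y)) z = - T x (act m (act l y)) z := by
  rw [hanti, h.neg2]

theorem sw56 (h : Good act T) (l m : E) (x y z : U) :
    T x y (act l (act m z)) = - T x y (act m (act l z)) := by
  rw [hanti, h.neg3]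

/-- swap of the operators number 1 and 4. -/
theorem sw14 (h : Good act T) (a1 a2 a3 a4 : E) (a b z : U) :
    T (act a1 (act a2 a)) (act a3 (act a4 b)) z = - T (act a4 (act a2 a)) (act a3 (act a1 b)) z := by
  rw [h.sw34 hanti a3 a4, h.sw13 a1 a4, h.sw34 hanti a1 a3]
  ring

/-- swap of the operators number 2 and 4. -/
theorem sw24 (h : Good act T) (a1 a2 a3 a4 : E) (a b z : U) :
    T (act a1 (act a2 a)) (act a3 (act a4 b)) z = - T (act a1 (act a4 a)) (act a3 (act a2 b)) z := by
  rw [h.sw12 hanti a1 a2, h.sw14 hanti a2 a1 a3 a4, h.sw12 hanti a4 a1]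
  ring

/-- swap of the operators number 1 and 6. -/
theorem sw16 (h : Good act T) (a1 a2 a5 a6 : E) (a y c : U) :
    T (act a1 (act a2 a)) y (act a5 (act a6 c)) = - T (act a6 (act a2 a)) y (act a5 (act a1 c)) := by
  rw [h.sym23, h.sw14 hanti, h.sym23 (act a6 (act a2 a))]

/-- swap of the operators number 2 and 6. -/
theorem sw26 (h : Good act T) (a1 a2 a5 a6 : E) (a y c : U) :
    T (act a1 (act a2 a)) y (act a5 (act a6 c)) = - T (act a1 (act a6 a)) y (act a5 (act a2 c)) := by
  rw [h.sym23, h.sw24 hanti, h.sym23 (act a1 (act a6 a))]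

/-- swap of the operators number 4 and 6. -/
theorem sw46 (h : Good act T) (a3 a4 a5 a6 : E) (x b c : U) :
    T x (act a3 (act a4 b)) (act a5 (act a6 c)) = - T x (act a3 (act a6 b)) (act a5 (act a4 c)) := by
  rw [h.sym12, h.sw26 hanti, h.sym12 x]

end Good

end Theta

section Char3

variable {F E U : Type*} [Field F] [CharP F 3] [AddCommGroup E] [Module F E]
  [AddCommGroup U] [Module F U]

omit [CharP F 3] in
theorem three_eq_zero [CharP F 3] : (3 : F) = 0 := by
  have := CharP.cast_eq_zero F 3
  simpa using this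

theorem two_ne_zero' : (2 : F) ≠ 0 := by
  intro h
  have h3 : (3 : F) = 0 := three_eq_zero
  have : (1 : F) = 0 := by linear_combination h3 - h
  exact one_ne_zero this

theorem eq_zero_of_eq_neg {x : F} (h : x = -x) : x = 0 := by
  have h3 : (3 : F) = 0 := three_eq_zero
  linear_combination x * h3 - h

namespace Good

variable {act : E →ₗ[F] U →ₗ[F] U} {T : U → U → U → F}

variable (hanti : ∀ a b u, act a (act b u) = - act b (act a u))

include hanti

theorem van24 (h : Good act T) (a1 a3 l : E) (a b z : U) :
    T (act a1 (act l a)) (act a3 (act l b)) z = 0 :=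
  eq_zero_of_eq_neg (h.sw24 hanti a1 l a3 l a b z)

theorem van26 (h : Good act T) (a1 a5 l : E) (a y c : U) :
    T (act a1 (act l a)) y (act a5 (act l c)) = 0 :=
  eq_zero_of_eq_neg (h.sw26 hanti a1 l a5 l a y c)

theorem van46 (h : Good act T) (a3 a5 l : E) (x b c : U) :
    T x (act a3 (act l b)) (act a5 (act l c)) = 0 :=
  eq_zero_of_eq_neg (h.sw46 hanti a3 l a5 l x b c)

/-- The key evaluation. -/
theorem key (h : Good act T) (l b1 b2 b3 b4 b5 b6 : E) (u v1 v2 v3 v4 : U) :
    T (act b4 (act b1 u + act l v1)) (act b5 (act b2 u + act l v2)) (act b6 (act b3 u + act l v3))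
    - T (act b3 (act b1 u + act l v1)) (act b5 (act b2 u + act l v2)) (act b6 (act b4 u + act l v4))
    - T (act b2 (act b1 u + act l v1)) (act b5 (act b4 u + act l v4)) (act b6 (act b3 u + act l v3))
    - T (act b1 (act b4 u + act l v4)) (act b5 (act b2 u + act l v2)) (act b6 (act b3 u + act l v3))
    = T (act b4 (act b1 u)) (act b5 (act b2 u)) (act b6 (act b3 u)) := by
  have h3 : (3 : F) = 0 := three_eq_zero
  simp only [map_add, h.add1, h.add2, h.add3, h.van24 hanti, h.van26 hanti, h.van46 hanti,
    add_zero]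
  -- main terms
  have m2 : T (act b3 (act b1 u)) (act b5 (act b2 u)) (act b6 (act b4 u))
      = - T (act b4 (act b1 u)) (act b5 (act b2 u)) (act b6 (act b3 u)) :=
    h.sw16 hanti _ _ _ _ _ _ _
  have m3 : T (act b2 (act b1 u)) (act b5 (act b4 u)) (act b6 (act b3 u))
      = - T (act b4 (act b1 u)) (act b5 (act b2 u)) (act b6 (act b3 u)) :=
    h.sw14 hanti _ _ _ _ _ _ _
  have m4 : T (act b1 (act b4 u)) (act b5 (act b2 u)) (act b6 (act b3 u))
      = - T (act b4 (act b1 u)) (act b5 (act b2 u)) (act b6 (act b3 u)) :=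
    h.sw12 hanti _ _ _ _ _
  -- v1
  have p2 : T (act b3 (act l v1)) (act b5 (act b2 u)) (act b6 (act b4 u))
      = - T (act b4 (act l v1)) (act b5 (act b2 u)) (act b6 (act b3 u)) :=
    h.sw16 hanti _ _ _ _ _ _ _
  have p3 : T (act b2 (act l v1)) (act b5 (act b4 u)) (act b6 (act b3 u))
      = - T (act b4 (act l v1)) (act b5 (act b2 u)) (act b6 (act b3 u)) :=
    h.sw14 hanti _ _ _ _ _ _ _
  -- v2
  have q2 : T (act b3 (act b1 u)) (act b5 (act l v2)) (act b6 (act b4 u))
      = - T (act b4 (act b1 u)) (act b5 (act l v2)) (act b6 (act b3 u)) :=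
    h.sw16 hanti _ _ _ _ _ _ _
  have q4 : T (act b1 (act b4 u)) (act b5 (act l v2)) (act b6 (act b3 u))
      = - T (act b4 (act b1 u)) (act b5 (act l v2)) (act b6 (act b3 u)) :=
    h.sw12 hanti _ _ _ _ _
  -- v3
  have r3 : T (act b2 (act b1 u)) (act b5 (act b4 u)) (act b6 (act l v3))
      = - T (act b4 (act b1 u)) (act b5 (act b2 u)) (act b6 (act l v3)) :=
    h.sw14 hanti _ _ _ _ _ _ _
  have r4 : T (act b1 (act b4 u)) (act b5 (act b2 u)) (act b6 (act l v3))
      = - T (act b4 (act b1 u)) (act b5 (act b2 u)) (act b6 (act l v3)) :=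
    h.sw12 hanti _ _ _ _ _
  -- v4
  have s3 : T (act b2 (act b1 u)) (act b5 (act l v4)) (act b6 (act b3 u))
      = T (act b3 (act b1 u)) (act b5 (act b2 u)) (act b6 (act l v4)) := by
    rw [h.sym23, h.sw35, h.sw14 hanti, neg_neg]
  have s4 : T (act b1 (act l v4)) (act b5 (act b2 u)) (act b6 (act b3 u))
      = T (act b3 (act b1 u)) (act b5 (act b2 u)) (act b6 (act l v4)) := by
    rw [h.sym13, h.sw15, h.sw12 hanti, neg_neg]
  linear_combination (-1 : F) * m2 - m3 - m4 - p2 - p3 - q2 - q4 - r3 - r4 - s3 - s4
    + (T (act b4 (act b1 u)) (act b5 (act b2 u)) (act b6 (act b3 u))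
      + T (act b4 (act b1 u)) (act b5 (act b2 u)) (act b6 (act l v3))
      + T (act b4 (act b1 u)) (act b5 (act l v2)) (act b6 (act b3 u))
      + T (act b4 (act l v1)) (act b5 (act b2 u)) (act b6 (act b3 u))
      - T (act b3 (act b1 u)) (act b5 (act b2 u)) (act b6 (act l v4))) * h3

omit hanti in
theorem cube_add (h : Good act T) (a b : U) :
    T (a + b) (a + b) (a + b) = T a a a + T b b b := by
  have h3 : (3 : F) = 0 := three_eq_zero
  simp only [h.add1, h.add2, h.add3]
  have e1 : T b a a = T a a b := h.sym13 _ _ _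
  have e2 : T a b a = T a a b := h.sym23 _ _ _
  have e3 : T b a b = T a b b := h.sym12 _ _ _
  have e4 : T b b a = T a b b := h.sym13 _ _ _
  linear_combination e1 + e2 + e3 + e4 + (T a a b + T a b b) * h3

omit hanti [CharP F 3] in
theorem cube_smul (h : Good act T) (r : F) (a : U) :
    T (r • a) (r • a) (r • a) = r ^ 3 * T a a a := by
  rw [h.smul1, h.smul2, h.smul3]
  ring

omit hanti in
theorem cube_act (h : Good act T) (l : E) (a : U) :
    T (act l a) (act l a) (act l a) = 0 :=
  eq_zero_of_eq_neg (h.skew l l a a (act l a))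

omit [CharP F 3] in
theorem comm3 (a b l : E) (u : U) :
    act a (act b (act l u)) = act l (act a (act b u)) := by
  rw [hanti b l, map_neg, hanti a l, neg_neg]

omit [CharP F 3] in
theorem step (h : Good act T) (a1 a2 a3 a4 a5 a6 : E) :
    Good act (fun a b c => T (act a1 (act a2 a)) (act a3 (act a4 b)) (act a5 (act a6 c))) where
  add1 a a' b c := by simp only [map_add, h.add1]
  smul1 r a b c := by simp only [map_smul, h.smul1]
  sym12 a b c := by
    rw [h.sym12, h.sw13, h.sw24 hanti, neg_neg]
  sym23 a b c := by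
    rw [h.sym23, h.sw35, h.sw46 hanti, neg_neg]
  skew l m a b c := by
    rw [comm3 hanti a1 a2 l a, comm3 hanti a3 a4 m b, comm3 hanti a1 a2 m a,
      comm3 hanti a3 a4 l b, h.sw13]

end Good

end Char3

end Pool.Agent.MP_e7684b_al
end

section

/-!
# The algebra attached to a system of bilinear maps

Auxiliary file for MP_e7684b_al.
-/

namespace Pool.Agent.MP_e7684b_al

universe u

/-- The data from which the algebras are built. -/
structure Data (F E U W : Type u) [Field F] [AddCommGroup E] [Module F E]
    [AddCommGroup U] [Module F U] [AddCommGroup W] [Module F W] where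
  act : E →ₗ[F] U →ₗ[F] U
  star : U →ₗ[F] U →ₗ[F] W
  ws : E →ₗ[F] W →ₗ[F] W
  pair : W →ₗ[F] U →ₗ[F] F
  act_anti : ∀ a b u, act a (act b u) = - act b (act a u)
  ws_anti : ∀ a b w, ws a (ws b w) = - ws b (ws a w)
  star_comm : ∀ u v, star u v = star v u
  j2 : ∀ l u v, ws l (star u v) + star (act l u) v + star u (act l v) = 0
  j2' : ∀ l w u, pair (ws l w) u + pair w (act l u) = 0
  j1 : ∀ u v x, pair (star u v) x + pair (star v x) u + pair (star x u) v = 0

variable {F E U W : Type u} [Field F] [AddCommGroup E] [Module F E]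
    [AddCommGroup U] [Module F U] [AddCommGroup W] [Module F W]

/-- The underlying space of the algebra. -/
def Alg (_D : Data F E U W) : Type u := E × U × W × F

namespace Alg

variable (D : Data F E U W)

instance : AddCommGroup (Alg D) := inferInstanceAs (AddCommGroup (E × U × W × F))

instance : Module F (Alg D) := inferInstanceAs (Module F (E × U × W × F))

variable {D}

/-- the components -/
def pe (x : Alg D) : E := x.1
/-- the components -/
def pu (x : Alg D) : U := x.2.1
/-- the components -/
def pw (x : Alg D) : W := x.2.2.1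
/-- the components -/
def pc (x : Alg D) : F := x.2.2.2

/-- constructor -/
def mk (e : E) (u : U) (w : W) (c : F) : Alg D := (e, u, w, c)

@[simp] theorem pe_mk (e : E) (u : U) (w : W) (c : F) : (mk e u w c : Alg D).pe = e := rfl
@[simp] theorem pu_mk (e : E) (u : U) (w : W) (c : F) : (mk e u w c : Alg D).pu = u := rfl
@[simp] theorem pw_mk (e : E) (u : U) (w : W) (c : F) : (mk e u w c : Alg D).pw = w := rfl
@[simp] theorem pc_mk (e : E) (u : U) (w : W) (c : F) : (mk e u w c : Alg D).pc = c := rfl

@[simp] theorem pe_add (x y : Alg D) : (x + y).pe = x.pe + y.pe := rfl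
@[simp] theorem pu_add (x y : Alg D) : (x + y).pu = x.pu + y.pu := rfl
@[simp] theorem pw_add (x y : Alg D) : (x + y).pw = x.pw + y.pw := rfl
@[simp] theorem pc_add (x y : Alg D) : (x + y).pc = x.pc + y.pc := rfl

@[simp] theorem pe_sub (x y : Alg D) : (x - y).pe = x.pe - y.pe := rfl
@[simp] theorem pu_sub (x y : Alg D) : (x - y).pu = x.pu - y.pu := rfl
@[simp] theorem pw_sub (x y : Alg D) : (x - y).pw = x.pw - y.pw := rfl
@[simp] theorem pc_sub (x y : Alg D) : (x - y).pc = x.pc - y.pc := rfl

@[simp] theorem pe_smul (r : F) (x : Alg D) : (r • x).pe = r • x.pe := rfl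
@[simp] theorem pu_smul (r : F) (x : Alg D) : (r • x).pu = r • x.pu := rfl
@[simp] theorem pw_smul (r : F) (x : Alg D) : (r • x).pw = r • x.pw := rfl
@[simp] theorem pc_smul (r : F) (x : Alg D) : (r • x).pc = r • x.pc := rfl

@[simp] theorem pe_zero : (0 : Alg D).pe = 0 := rfl
@[simp] theorem pu_zero : (0 : Alg D).pu = 0 := rfl
@[simp] theorem pw_zero : (0 : Alg D).pw = 0 := rfl
@[simp] theorem pc_zero : (0 : Alg D).pc = 0 := rfl

theorem ext' {x y : Alg D} (h1 : x.pe = y.pe) (h2 : x.pu = y.pu) (h3 : x.pw = y.pw)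
    (h4 : x.pc = y.pc) : x = y := by
  obtain ⟨a, b, c, d⟩ := x
  obtain ⟨a', b', c', d'⟩ := y
  simp only [pe, pu, pw, pc] at h1 h2 h3 h4
  subst h1 h2 h3 h4
  rfl

instance : Mul (Alg D) where
  mul x y := mk 0 (D.act x.pe y.pu + D.act y.pe x.pu)
    (D.star x.pu y.pu + D.ws x.pe y.pw + D.ws y.pe x.pw)
    (D.pair x.pw y.pu + D.pair y.pw x.pu)

@[simp] theorem pe_mul (x y : Alg D) : (x * y).pe = 0 := rfl
@[simp] theorem pu_mul (x y : Alg D) : (x * y).pu = D.act x.pe y.pu + D.act y.pe x.pu := rfl
@[simp] theorem pw_mul (x y : Alg D) :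
  (x * y).pw = D.star x.pu y.pu + D.ws x.pe y.pw + D.ws y.pe x.pw := rfl
@[simp] theorem pc_mul (x y : Alg D) : (x * y).pc = D.pair x.pw y.pu + D.pair y.pw x.pu := rfl

instance : NonUnitalNonAssocRing (Alg D) where
  left_distrib x y z := by
    apply ext'
    · simp
    · simp only [pu_mul, pu_add, pe_add, map_add, LinearMap.add_apply]; abel
    · simp only [pw_mul, pu_add, pe_add, pw_add, map_add, LinearMap.add_apply]; abel
    · simp only [pc_mul, pu_add, pc_add, pw_add, map_add, LinearMap.add_apply]; abel
  right_distrib x y z := by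
    apply ext'
    · simp
    · simp only [pu_mul, pu_add, pe_add, map_add, LinearMap.add_apply]; abel
    · simp only [pw_mul, pu_add, pe_add, pw_add, map_add, LinearMap.add_apply]; abel
    · simp only [pc_mul, pu_add, pc_add, pw_add, map_add, LinearMap.add_apply]; abel
  zero_mul x := by
    apply ext' <;> simp
  mul_zero x := by
    apply ext' <;> simp

instance : IsScalarTower F (Alg D) (Alg D) where
  smul_assoc r x y := by
    apply ext'
    · simp
    · simp [smul_add]
    · simp [smul_add]
    · simp [mul_add]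

instance : SMulCommClass F (Alg D) (Alg D) where
  smul_comm r x y := by
    apply ext'
    · simp
    · simp [smul_add]
    · simp [smul_add]
    · simp [mul_add]

theorem comm (x y : Alg D) : x * y = y * x := by
  apply ext'
  · simp
  · simp only [pu_mul]; abel
  · simp only [pw_mul, D.star_comm x.pu]; abel
  · simp only [pc_mul]; abel

theorem jacobi (x y z : Alg D) : (x * y) * z + (y * z) * x + (z * x) * y = 0 := by
  apply ext'
  · simp
  · simp only [pu_mul, pe_mul, pu_add, map_zero, LinearMap.zero_apply, zero_add, map_add,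
      pu_zero]
    rw [D.act_anti z.pe x.pe, D.act_anti z.pe y.pe, D.act_anti x.pe y.pe]
    abel
  · simp only [pu_mul, pw_mul, pe_mul, map_zero, LinearMap.zero_apply, map_add,
      pw_zero, pw_add, add_zero, LinearMap.add_apply]
    have e1 := D.j2 z.pe x.pu y.pu
    have e2 := D.j2 x.pe y.pu z.pu
    have e3 := D.j2 y.pe z.pu x.pu
    rw [D.ws_anti z.pe x.pe, D.ws_anti z.pe y.pe, D.ws_anti x.pe y.pe]
    rw [D.star_comm x.pu (D.act z.pe y.pu)] at e1
    rw [D.star_comm y.pu (D.act x.pe z.pu)] at e2
    rw [D.star_comm z.pu (D.act y.pe x.pu)] at e3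
    linear_combination (norm := skip) e1 + e2 + e3
    abel
  · simp only [pu_mul, pw_mul, map_add, pc_mul, pc_zero, pc_add, LinearMap.add_apply]
    have e1 := D.j1 x.pu y.pu z.pu
    have a1 := D.j2' x.pe y.pw z.pu
    have a2 := D.j2' x.pe z.pw y.pu
    have a3 := D.j2' y.pe x.pw z.pu
    have a4 := D.j2' y.pe z.pw x.pu
    have a5 := D.j2' z.pe x.pw y.pu
    have a6 := D.j2' z.pe y.pw x.pu
    linear_combination e1 + a1 + a2 + a3 + a4 + a5 + a6

end Alg

end Pool.Agent.MP_e7684b_al
end
end

section

section

/-!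
# The nonassociative polynomials and their values on the algebras `Alg D`

Auxiliary file for MP_e7684b_al.
-/

namespace Pool.Agent.MP_e7684b_al

universe u

section Words

variable {A : Type*}

/-- The nested product used in the identities. -/
def TT [Mul A] (v : ℕ → A) : ℕ → A → A → A → A
  | 0, a, b, c => ((a * v 7 * v 8) * (b * v 9 * v 10)) * (c * v 11)
  | k + 1, a, b, c => TT v k (a * v (12 + 6 * k) * v (13 + 6 * k))
      (b * v (14 + 6 * k) * v (15 + 6 * k)) (c * v (16 + 6 * k) * v (17 + 6 * k))

/-- One of the four terms of the identity. -/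
def PP [Mul A] (v : ℕ → A) (k i j l m : ℕ) : A :=
  TT v k (v 0 * v i * v m) (v 0 * v j * v 5) (v 0 * v l * v 6)

/-- The identity number `k`, as a function of the values `v` of the variables. -/
def ff [Mul A] [Sub A] (v : ℕ → A) (k : ℕ) : A :=
  PP v k 1 2 3 4 - PP v k 1 2 4 3 - PP v k 1 4 3 2 - PP v k 4 2 3 1

end Words

variable {F E U W : Type u} [Field F] [AddCommGroup E] [Module F E]
    [AddCommGroup U] [Module F U] [AddCommGroup W] [Module F W]

namespace Data

variable (D : Data F E U W)

/-- the basic trilinear form -/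
def tau (a b c : U) : F := D.pair (D.star a b) c

theorem tau_symm (a b c : U) : D.tau a b c = D.tau b a c := by
  unfold tau; rw [D.star_comm]

theorem tau_neg1 (a b c : U) : D.tau (-a) b c = - D.tau a b c := by
  simp [tau]

theorem tau_neg2 (a b c : U) : D.tau a (-b) c = - D.tau a b c := by
  simp [tau]

theorem tau_j2 (l : E) (a b c : U) :
    D.tau a b (D.act l c) = D.tau (D.act l a) b c + D.tau a (D.act l b) c := by
  unfold tau
  have h1 := D.j2' l (D.star a b) c
  have h2 := congrArg (fun w => D.pair w c) (D.j2 l a b)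
  simp only [map_add, LinearMap.add_apply, map_zero, LinearMap.zero_apply] at h2
  linear_combination h1 - h2

variable [CharP F 3]

theorem tau_s1 (l : E) (a b c : U) :
    D.tau (D.act l a) b c = - D.tau (D.act l c) b a := by
  have h3 : (3 : F) = 0 := three_eq_zero
  have c1 := D.j1 (D.act l a) b c
  have c2 := D.j1 (D.act l b) a c
  have c3 := D.j1 (D.act l c) b a
  change D.tau _ _ _ + D.tau _ _ _ + D.tau _ _ _ = 0 at c1 c2 c3
  rw [D.tau_j2, D.tau_symm c (D.act l a), D.tau_symm b (D.act l c)] at c1
  rw [D.tau_j2, D.tau_symm c (D.act l b), D.tau_symm a (D.act l c)] at c2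
  rw [D.tau_j2, D.tau_symm a (D.act l c), D.tau_symm b (D.act l a)] at c3
  linear_combination c2 - c1 - c3 + (D.tau (D.act l a) b c + D.tau (D.act l c) b a) * h3

theorem tau_x12 (l m : E) (a b c : U) :
    D.tau (D.act l a) (D.act m b) c = - D.tau (D.act m a) (D.act l b) c := by
  have hbc : ∀ a b c : U, D.tau (D.act l a) (D.act m b) c = - D.tau (D.act l a) (D.act m c) b := by
    intro a b c
    rw [D.tau_symm, D.tau_s1, D.tau_symm (D.act m c)]
  rw [D.tau_s1, hbc, D.tau_s1, D.tau_symm (D.act l b)]
  ring

theorem tau_x13 (l m : E) (a b c : U) :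
    D.tau (D.act l a) b (D.act m c) = - D.tau (D.act m a) b (D.act l c) := by
  rw [D.tau_s1, D.act_anti, D.tau_neg1, D.tau_s1]
  ring

theorem tau_x23 (l m : E) (a b c : U) :
    D.tau a (D.act l b) (D.act m c) = - D.tau a (D.act m b) (D.act l c) := by
  rw [D.tau_symm, D.tau_x13, D.tau_symm a]

theorem tau_bc (l m : E) (a b c : U) :
    D.tau (D.act l a) (D.act m b) c = - D.tau (D.act l a) (D.act m c) b := by
  rw [D.tau_symm, D.tau_s1, D.tau_symm (D.act m c)]

theorem good0 (b7 b8 b9 b10 b11 : E) :
    Good D.act (fun a b c => D.tau (D.act b8 (D.act b7 a)) (D.act b10 (D.act b9 b))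
      (D.act b11 c)) where
  add1 a a' b c := by simp only [tau, map_add, LinearMap.add_apply]
  smul1 r a b c := by simp only [tau, map_smul, LinearMap.smul_apply, smul_eq_mul]
  sym12 a b c := by
    rw [D.tau_symm, D.tau_x12, D.act_anti b8 b9, D.act_anti b10 b7, D.tau_neg1, D.tau_neg2,
      D.tau_x12, D.act_anti b7 b8, D.act_anti b9 b10, D.tau_neg1, D.tau_neg2]
    ring
  sym23 a b c := by
    rw [D.tau_bc, D.act_anti b10 b11, D.tau_neg2, D.tau_x23, D.act_anti b9 b10, D.tau_neg2]
    ring
  skew l m a b c := by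
    rw [Good.comm3 D.act_anti b8 b7 l a, Good.comm3 D.act_anti b10 b9 m b,
      Good.comm3 D.act_anti b8 b7 m a, Good.comm3 D.act_anti b10 b9 l b, D.tau_x12]

/-- The trilinear forms computed by the nested products. -/
def Th (β : ℕ → E) : ℕ → U → U → U → F
  | 0, a, b, c => D.tau (D.act (β 8) (D.act (β 7) a)) (D.act (β 10) (D.act (β 9) b))
      (D.act (β 11) c)
  | k + 1, a, b, c => Th β k (D.act (β (13 + 6 * k)) (D.act (β (12 + 6 * k)) a))
      (D.act (β (15 + 6 * k)) (D.act (β (14 + 6 * k)) b))
      (D.act (β (17 + 6 * k)) (D.act (β (16 + 6 * k)) c))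

theorem Th_good (β : ℕ → E) (k : ℕ) : Good D.act (D.Th β k) := by
  induction k with
  | zero => exact D.good0 _ _ _ _ _
  | succ k ih => exact Good.step D.act_anti ih _ _ _ _ _ _

/-- The final trilinear form. -/
def Th' (β : ℕ → E) (k : ℕ) (a b c : U) : F :=
  D.Th β k (D.act (β 4) (D.act (β 1) a)) (D.act (β 5) (D.act (β 2) b))
    (D.act (β 6) (D.act (β 3) c))

theorem Th'_good (β : ℕ → E) (k : ℕ) : Good D.act (D.Th' β k) :=
  Good.step D.act_anti (D.Th_good β k) _ _ _ _ _ _

end Data

namespace Alg

variable {D : Data F E U W}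

theorem TT_eval (v : ℕ → Alg D) (k : ℕ) : ∀ (a b c : Alg D), a.pe = 0 → b.pe = 0 → c.pe = 0 →
    TT v k a b c = mk 0 0 0 (D.Th (fun i => (v i).pe) k a.pu b.pu c.pu) := by
  induction k with
  | zero =>
    intro a b c ha hb hc
    apply ext'
    · simp [TT]
    · simp [TT]
    · simp [TT]
    · simp [TT, Data.Th, Data.tau, ha, hb, hc]
  | succ k ih =>
    intro a b c ha hb hc
    rw [TT, ih _ _ _ (by simp) (by simp) (by simp), Data.Th]
    simp [ha, hb, hc]

variable [CharP F 3]

theorem ff_eval (v : ℕ → Alg D) (k : ℕ) :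
    ff v k = mk 0 0 0 (D.Th' (fun i => (v i).pe) k (v 0).pu (v 0).pu (v 0).pu) := by
  unfold ff PP
  rw [TT_eval v k _ _ _ (by simp) (by simp) (by simp), TT_eval v k _ _ _ (by simp) (by simp) (by simp),
    TT_eval v k _ _ _ (by simp) (by simp) (by simp), TT_eval v k _ _ _ (by simp) (by simp) (by simp)]
  apply ext'
  · simp
  · simp
  · simp
  · simp only [pc_sub, pc_mk, pu_mul, pe_mul, map_zero, LinearMap.zero_apply, zero_add]
    have := Good.key D.act_anti (D.Th_good (fun i => (v i).pe) k) (v 0).pe (v 1).pe (v 2).pe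
      (v 3).pe (v 4).pe (v 5).pe (v 6).pe (v 0).pu (v 1).pu (v 2).pu (v 3).pu (v 4).pu
    unfold Data.Th'
    rw [← this]
    simp only [add_comm]

end Alg

end Pool.Agent.MP_e7684b_al
end

section

/-!
# The explicit models

Auxiliary file for MP_e7684b_al.
-/

namespace Pool.Agent.MP_e7684b_al

universe u

open Finsupp

section Signs

variable (F : Type u) [Field F]

/-- the elementary sign -/
def eps (a b : ℕ) : F := if b < a then -1 else 1

/-- sign of moving `i` through `J` -/
def sg (i : ℕ) (J : Finset ℕ) : F := ∏ b ∈ J, eps F i b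

/-- sign of sorting `I ++ J` -/
def ss (I J : Finset ℕ) : F := ∏ a ∈ I, sg F a J

/-- the coefficient function -/
def th (i j : ℕ) : F := if Even i then (if Even j then -1 else (j : F) - i) else (i : F) - j

variable {F}

theorem eps_swap {a b : ℕ} (h : a ≠ b) : eps F b a = - eps F a b := by
  unfold eps
  rcases lt_or_gt_of_ne h with h | h
  · rw [if_pos h, if_neg (by omega)]
  · rw [if_neg (by omega), if_pos h, neg_neg]

theorem sg_insert {i j : ℕ} {J : Finset ℕ} (h : j ∉ J) :
    sg F i (insert j J) = eps F i j * sg F i J := by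
  unfold sg; rw [Finset.prod_insert h]

theorem sg_union {i : ℕ} {I J : Finset ℕ} (h : Disjoint I J) :
    sg F i (I ∪ J) = sg F i I * sg F i J := by
  unfold sg; rw [Finset.prod_union h]

theorem ss_insert_left {i : ℕ} {I J : Finset ℕ} (h : i ∉ I) :
    ss F (insert i I) J = sg F i J * ss F I J := by
  unfold ss; rw [Finset.prod_insert h]

theorem prod_eps {i : ℕ} {I : Finset ℕ} (h : i ∉ I) :
    ∏ a ∈ I, eps F a i = (-1) ^ I.card * sg F i I := by
  unfold sg
  rw [← Finset.prod_const, ← Finset.prod_mul_distrib]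
  apply Finset.prod_congr rfl
  intro a ha
  rw [eps_swap (fun hh => h (hh ▸ ha) : i ≠ a)]
  ring

theorem ss_insert_right {i : ℕ} {I J : Finset ℕ} (h : i ∉ J) (h' : i ∉ I) :
    ss F I (insert i J) = (-1) ^ I.card * sg F i I * ss F I J := by
  unfold ss
  rw [← prod_eps h', ← Finset.prod_mul_distrib]
  apply Finset.prod_congr rfl
  intro a _
  rw [sg_insert h]

theorem ss_union_left {I J K : Finset ℕ} (h : Disjoint I J) :
    ss F (I ∪ J) K = ss F I K * ss F J K := by
  unfold ss; rw [Finset.prod_union h]

theorem ss_comm {I J : Finset ℕ} (h : Disjoint I J) :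
    ss F J I = (-1) ^ (I.card * J.card) * ss F I J := by
  unfold ss sg
  rw [Finset.prod_comm]
  have : ∀ a ∈ I, ∏ b ∈ J, eps F b a = (-1) ^ J.card * ∏ b ∈ J, eps F a b := by
    intro a ha
    rw [← Finset.prod_const, ← Finset.prod_mul_distrib]
    apply Finset.prod_congr rfl
    intro b hb
    have hab : a ≠ b := fun hh => (Finset.disjoint_left.mp h ha) (hh ▸ hb)
    rw [eps_swap hab]; ring
  rw [Finset.prod_congr rfl this, Finset.prod_mul_distrib, Finset.prod_const, ← pow_mul]
  congr 2
  ring

theorem sg_ne_zero (i : ℕ) (J : Finset ℕ) : sg F i J ≠ 0 := by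
  unfold sg
  apply Finset.prod_ne_zero_iff.mpr
  intro a _
  unfold eps
  split_ifs <;> simp

theorem ss_ne_zero (I J : Finset ℕ) : ss F I J ≠ 0 := by
  unfold ss
  apply Finset.prod_ne_zero_iff.mpr
  intro a _
  exact sg_ne_zero _ _

theorem th_symm (i j : ℕ) : th F j i = (-1) ^ (i * j) * th F i j := by
  unfold th
  rcases Nat.even_or_odd i with hi | hi <;> rcases Nat.even_or_odd j with hj | hj
  · simp [hi, hj, Even.mul_right hi]
  · simp [hi, Even.mul_right hi]
  · simp [hj, Even.mul_left hj]
  · have h4 : ¬ Even i := by simpa using hi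
    have h5 : ¬ Even j := by simpa using hj
    simp only [h4, h5, if_false, (hi.mul hj).neg_one_pow]
    ring

variable [CharP F 3]

theorem th_step (i j : ℕ) :
    th F (i + 1) j + (-1) ^ i * th F i (j + 1) = (-1) ^ (i + j) * th F i j := by
  have h3 : (3 : F) = 0 := three_eq_zero
  unfold th
  rcases Nat.even_or_odd i with hi | hi <;> rcases Nat.even_or_odd j with hj | hj
  · have h1 : ¬ Even (i + 1) := by simpa using hi.add_one
    have h2 : ¬ Even (j + 1) := by simpa using hj.add_one
    simp only [hi, hj, h1, h2, if_true, if_false, hi.neg_one_pow, (hi.add hj).neg_one_pow]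
    push_cast
    linear_combination h3
  · have h1 : ¬ Even (i + 1) := by simpa using hi.add_one
    have h2 : Even (j + 1) := by simpa using hj.add_one
    have h4 : ¬ Even j := by simpa using hj
    simp only [hi, h4, h1, h2, if_true, if_false, hi.neg_one_pow, (hi.add_odd hj).neg_one_pow]
    push_cast
    ring
  · have h1 : Even (i + 1) := by simpa using hi.add_one
    have h2 : ¬ Even (j + 1) := by simpa using hj.add_one
    have h4 : ¬ Even i := by simpa using hi
    simp only [hj, h4, h1, if_true, if_false, hi.neg_one_pow, (hi.add_even hj).neg_one_pow]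
    push_cast
    ring
  · have h1 : Even (i + 1) := by simpa using hi.add_one
    have h4 : ¬ Even i := by simpa using hi
    have h5 : ¬ Even j := by simpa using hj
    simp only [h5, h4, h1, if_true, if_false, hi.neg_one_pow, (hi.add_odd hj).neg_one_pow]
    push_cast
    linear_combination ((j : F) - i) * h3

theorem th_cyc (i j k m : ℕ) (hm : i + j + k = m) (hodd : Odd m) (h2 : (m : F) = 2) :
    th F i j + (-1) ^ (i * (j + k)) * th F j k + (-1) ^ (k * (i + j)) * th F k i = 0 := by
  have h3 : (3 : F) = 0 := three_eq_zero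
  have hs : (i : F) + j + k = 2 := by rw [← h2, ← hm]; push_cast; ring
  subst hm
  unfold th
  rcases Nat.even_or_odd i with hi | hi <;> rcases Nat.even_or_odd j with hj | hj <;>
    rcases Nat.even_or_odd k with hk | hk
  · exfalso
    have := (hi.add hj).add hk
    exact (Nat.not_even_iff_odd.mpr hodd) this
  · have n1 : ¬ Even k := by simpa using hk
    simp only [hi, hj, n1, if_true, if_false, (hi.mul_right (j + k)).neg_one_pow,
      ((hi.add hj).mul_left k).neg_one_pow]
    linear_combination -hs + (k : F) * h3 - h3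
  · have n1 : ¬ Even j := by simpa using hj
    simp only [hi, hk, n1, if_true, if_false, (hi.mul_right (j + k)).neg_one_pow,
      (hk.mul_right (i + j)).neg_one_pow]
    linear_combination -hs + (j : F) * h3 - h3
  · exfalso
    exact (Nat.not_even_iff_odd.mpr hodd) ((hi.add_odd hj).add_odd hk)
  · have n1 : ¬ Even i := by simpa using hi
    simp only [hj, hk, n1, if_true, if_false, ((hj.add hk).mul_left i).neg_one_pow,
      (hk.mul_right (i + j)).neg_one_pow]
    linear_combination -hs + (i : F) * h3 - h3
  · exfalso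
    exact (Nat.not_even_iff_odd.mpr hodd) ((hi.add_even hj).add_odd hk)
  · exfalso
    exact (Nat.not_even_iff_odd.mpr hodd) ((hi.add_odd hj).add hk)
  · have n1 : ¬ Even i := by simpa using hi
    have n2 : ¬ Even j := by simpa using hj
    have n3 : ¬ Even k := by simpa using hk
    simp only [n1, n2, n3, if_false, ((hj.add_odd hk).mul_left i).neg_one_pow,
      ((hi.add_odd hj).mul_left k).neg_one_pow]
    ring

end Signs

end Pool.Agent.MP_e7684b_al
end

section

/-!
# The explicit models, continued

Auxiliary file for MP_e7684b_al.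
-/

namespace Pool.Agent.MP_e7684b_al

universe u

open Finsupp

section Bil

variable {F : Type u} [Field F] {α β : Type*} {V : Type*} [AddCommGroup V] [Module F V]

/-- bilinear extension -/
noncomputable def bil (g : α → β → V) : (α →₀ F) →ₗ[F] (β →₀ F) →ₗ[F] V :=
  Finsupp.linearCombination F (fun a => Finsupp.linearCombination F (g a))

theorem bil_single (g : α → β → V) (a : α) (b : β) (r s : F) :
    bil g (single a r) (single b s) = (r * s) • g a b := by
  simp [bil, Finsupp.linearCombination_single, smul_smul]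

theorem bil_single_one (g : α → β → V) (a : α) (b : β) :
    bil g (single a (1 : F)) (single b (1 : F)) = g a b := by
  rw [bil_single]; simp

theorem lin_ind (f : (α →₀ F) → V) (hadd : ∀ x y, f (x + y) = f x + f y)
    (hsmul : ∀ (r : F) x, f (r • x) = r • f x) (h : ∀ a, f (single a 1) = 0) :
    ∀ x, f x = 0 := by
  intro x
  induction x using Finsupp.induction_linear with
  | zero =>
    have := hsmul 0 0
    simpa using this
  | add a b ha hb => rw [hadd, ha, hb, add_zero]
  | single a r =>
    have : (single a r : α →₀ F) = r • single a 1 := by simp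
    rw [this, hsmul, h, smul_zero]

end Bil

section Model

variable (F : Type u) [Field F]

/-- the action on basis vectors -/
noncomputable def actB (i : ℕ) (I : Finset ℕ) : Finset ℕ →₀ F :=
  if i ∈ I then 0 else sg F i I • single (insert i I) 1

/-- the symmetric product on basis vectors -/
noncomputable def starB (I J : Finset ℕ) : Finset ℕ →₀ F :=
  if Disjoint I J then (ss F I J * th F I.card J.card) • single (I ∪ J) 1 else 0

/-- the second action on basis vectors -/
noncomputable def wsB (i : ℕ) (S : Finset ℕ) : Finset ℕ →₀ F :=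
  if i ∈ S then 0 else (-(-1) ^ S.card * sg F i S) • single (insert i S) 1

/-- the pairing on basis vectors -/
noncomputable def pairB (M : Finset ℕ) (S K : Finset ℕ) : F :=
  if Disjoint S K ∧ S ∪ K = M then ss F S K else 0

variable {F}

theorem actB_of_mem {i : ℕ} {I : Finset ℕ} (h : i ∈ I) : actB F i I = 0 := if_pos h
theorem actB_of_not_mem {i : ℕ} {I : Finset ℕ} (h : i ∉ I) :
    actB F i I = sg F i I • single (insert i I) 1 := if_neg h
theorem wsB_of_mem {i : ℕ} {I : Finset ℕ} (h : i ∈ I) : wsB F i I = 0 := if_pos h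
theorem wsB_of_not_mem {i : ℕ} {I : Finset ℕ} (h : i ∉ I) :
    wsB F i I = (-(-1) ^ I.card * sg F i I) • single (insert i I) 1 := if_neg h
theorem starB_of_disj {I J : Finset ℕ} (h : Disjoint I J) :
    starB F I J = (ss F I J * th F I.card J.card) • single (I ∪ J) 1 := if_pos h
theorem starB_of_not_disj {I J : Finset ℕ} (h : ¬ Disjoint I J) :
    starB F I J = 0 := if_neg h

theorem act_anti_basis (i j : ℕ) (I : Finset ℕ) :
    bil (actB F) (single i 1) (actB F j I) + bil (actB F) (single j 1) (actB F i I) = 0 := by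
  by_cases hj : j ∈ I
  · by_cases hi : i ∈ I
    · simp [actB_of_mem hi, actB_of_mem hj]
    · rw [actB_of_mem hj, actB_of_not_mem hi, map_zero, zero_add, map_smul, bil_single_one,
        actB_of_mem (Finset.mem_insert_of_mem hj), smul_zero]
  · by_cases hi : i ∈ I
    · rw [actB_of_mem hi, actB_of_not_mem hj, map_zero, add_zero, map_smul, bil_single_one,
        actB_of_mem (Finset.mem_insert_of_mem hi), smul_zero]
    · rw [actB_of_not_mem hi, actB_of_not_mem hj, map_smul, map_smul, bil_single_one,
        bil_single_one]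
      by_cases hij : i = j
      · subst hij
        rw [actB_of_mem (Finset.mem_insert_self _ _)]; simp
      · rw [actB_of_not_mem (by simp [hij, hi]), actB_of_not_mem (by simp [Ne.symm hij, hj]),
          sg_insert hj, sg_insert hi, Finset.insert_comm j i, smul_smul, smul_smul, ← add_smul,
          eps_swap hij]
        convert zero_smul F _ using 2
        ring

theorem ws_anti_basis (i j : ℕ) (I : Finset ℕ) :
    bil (wsB F) (single i 1) (wsB F j I) + bil (wsB F) (single j 1) (wsB F i I) = 0 := by
  by_cases hj : j ∈ I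
  · by_cases hi : i ∈ I
    · simp [wsB_of_mem hi, wsB_of_mem hj]
    · rw [wsB_of_mem hj, wsB_of_not_mem hi, map_zero, zero_add, map_smul, bil_single_one,
        wsB_of_mem (Finset.mem_insert_of_mem hj), smul_zero]
  · by_cases hi : i ∈ I
    · rw [wsB_of_mem hi, wsB_of_not_mem hj, map_zero, add_zero, map_smul, bil_single_one,
        wsB_of_mem (Finset.mem_insert_of_mem hi), smul_zero]
    · rw [wsB_of_not_mem hi, wsB_of_not_mem hj, map_smul, map_smul, bil_single_one,
        bil_single_one]
      by_cases hij : i = j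
      · subst hij
        rw [wsB_of_mem (Finset.mem_insert_self _ _)]; simp
      · rw [wsB_of_not_mem (by simp [hij, hi]), wsB_of_not_mem (by simp [Ne.symm hij, hj]),
          sg_insert hj, sg_insert hi, Finset.insert_comm j i, smul_smul, smul_smul, ← add_smul,
          eps_swap hij, Finset.card_insert_of_notMem hi, Finset.card_insert_of_notMem hj]
        convert zero_smul F _ using 2
        ring

theorem star_comm_basis (I J : Finset ℕ) : starB F I J - starB F J I = 0 := by
  by_cases h : Disjoint I J
  · rw [starB_of_disj h, starB_of_disj h.symm, ss_comm h, th_symm I.card J.card, Finset.union_comm J I,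
      ← sub_smul]
    convert zero_smul F _ using 2
    have : ((-1 : F) ^ (I.card * J.card)) * ((-1) ^ (I.card * J.card)) = 1 := by
      rw [← mul_pow]; simp
    linear_combination (-(ss F I J) * th F I.card J.card) * this
  · rw [starB_of_not_disj h, starB_of_not_disj (fun hh => h hh.symm), sub_zero]

variable [CharP F 3]

theorem j2_basis (i : ℕ) (I J : Finset ℕ) :
    bil (wsB F) (single i 1) (starB F I J) + bil (starB F) (actB F i I) (single J 1)
      + bil (starB F) (single I 1) (actB F i J) = 0 := by
  by_cases hI : i ∈ I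
  · rw [actB_of_mem hI, map_zero, LinearMap.zero_apply, add_zero]
    have h1 : bil (wsB F) (single i 1) (starB F I J) = 0 := by
      by_cases h : Disjoint I J
      · rw [starB_of_disj h, map_smul, bil_single_one, wsB_of_mem (by simp [hI]), smul_zero]
      · rw [starB_of_not_disj h, map_zero]
    rw [h1, zero_add]
    by_cases hJ : i ∈ J
    · rw [actB_of_mem hJ, map_zero]
    · rw [actB_of_not_mem hJ, map_smul, bil_single_one, starB_of_not_disj, smul_zero]
      intro h
      exact Finset.disjoint_left.mp h hI (Finset.mem_insert_self _ _)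
  · by_cases hJ : i ∈ J
    · rw [actB_of_mem hJ, map_zero, add_zero]
      have h1 : bil (wsB F) (single i 1) (starB F I J) = 0 := by
        by_cases h : Disjoint I J
        · rw [starB_of_disj h, map_smul, bil_single_one, wsB_of_mem (by simp [hJ]), smul_zero]
        · rw [starB_of_not_disj h, map_zero]
      rw [h1, zero_add, actB_of_not_mem hI, map_smul, LinearMap.smul_apply, bil_single_one,
        starB_of_not_disj, smul_zero]
      intro h
      exact Finset.disjoint_left.mp h (Finset.mem_insert_self _ _) hJ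
    · rw [actB_of_not_mem hI, actB_of_not_mem hJ, map_smul, LinearMap.smul_apply, map_smul,
        bil_single_one, bil_single_one]
      by_cases h : Disjoint I J
      · rw [starB_of_disj h, map_smul, bil_single_one, wsB_of_not_mem (by simp [hI, hJ]),
          starB_of_disj (by simp [hJ, h]), starB_of_disj (by simp [hI, h]),
          ss_insert_left hI, ss_insert_right hJ hI, sg_union h, Finset.card_union_of_disjoint h,
          Finset.card_insert_of_notMem hI, Finset.card_insert_of_notMem hJ]
        have e1 : insert i I ∪ J = insert i (I ∪ J) := by simp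
        have e2 : I ∪ insert i J = insert i (I ∪ J) := by simp
        rw [e1, e2, smul_smul, smul_smul, smul_smul, ← add_smul, ← add_smul]
        convert zero_smul F _ using 2
        have ht := th_step (F := F) I.card J.card
        linear_combination (ss F I J * sg F i I * sg F i J) * ht
      · rw [starB_of_not_disj h, starB_of_not_disj, starB_of_not_disj]
        · simp
        · intro hh; exact h (Finset.disjoint_of_subset_right (Finset.subset_insert _ _) hh)
        · intro hh; exact h (Finset.disjoint_of_subset_left (Finset.subset_insert _ _) hh)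

omit [CharP F 3] in
theorem j2'_basis (M : Finset ℕ) (i : ℕ) (S K : Finset ℕ) :
    bil (pairB F M) (wsB F i S) (single K 1) + bil (pairB F M) (single S 1) (actB F i K) = 0 := by
  by_cases hS : i ∈ S
  · rw [wsB_of_mem hS, map_zero, LinearMap.zero_apply, zero_add]
    by_cases hK : i ∈ K
    · rw [actB_of_mem hK, map_zero]
    · rw [actB_of_not_mem hK, map_smul, bil_single_one, pairB, if_neg, smul_zero]
      rintro ⟨h, -⟩
      exact Finset.disjoint_left.mp h hS (Finset.mem_insert_self _ _)
  · by_cases hK : i ∈ K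
    · rw [actB_of_mem hK, map_zero, add_zero, wsB_of_not_mem hS, map_smul, LinearMap.smul_apply,
        bil_single_one, pairB, if_neg, smul_zero]
      rintro ⟨h, -⟩
      exact Finset.disjoint_left.mp h (Finset.mem_insert_self _ _) hK
    · rw [actB_of_not_mem hK, wsB_of_not_mem hS, map_smul, map_smul, LinearMap.smul_apply,
        bil_single_one, bil_single_one, pairB, pairB]
      have e1 : insert i S ∪ K = insert i (S ∪ K) := by simp
      have e2 : S ∪ insert i K = insert i (S ∪ K) := by simp
      have d1 : Disjoint (insert i S) K ↔ Disjoint S K := by simp [hK]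
      have d2 : Disjoint S (insert i K) ↔ Disjoint S K := by simp [hS]
      simp only [e1, e2, d1, d2]
      by_cases hh : Disjoint S K ∧ insert i (S ∪ K) = M
      · rw [if_pos hh, if_pos hh, ss_insert_left hS, ss_insert_right hK hS, smul_eq_mul,
          smul_eq_mul]
        ring
      · rw [if_neg hh, if_neg hh]; simp

theorem j1_basis (M : Finset ℕ) (hodd : Odd M.card) (h2 : (M.card : F) = 2)
    (I J K : Finset ℕ) :
    bil (pairB F M) (starB F I J) (single K 1) + bil (pairB F M) (starB F J K) (single I 1)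
      + bil (pairB F M) (starB F K I) (single J 1) = 0 := by
  have key : ∀ I J K : Finset ℕ, bil (pairB F M) (starB F I J) (single K 1) =
      if Disjoint I J ∧ Disjoint I K ∧ Disjoint J K ∧ I ∪ J ∪ K = M then
        ss F I J * ss F I K * ss F J K * th F I.card J.card else 0 := by
    intro I J K
    by_cases h : Disjoint I J
    · rw [starB_of_disj h, map_smul, LinearMap.smul_apply, bil_single_one, pairB]
      by_cases h' : Disjoint (I ∪ J) K ∧ I ∪ J ∪ K = M
      · rw [if_pos h', if_pos, ss_union_left h, smul_eq_mul]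
        · ring
        · exact ⟨h, (Finset.disjoint_union_left.mp h'.1).1, (Finset.disjoint_union_left.mp h'.1).2,
            h'.2⟩
      · rw [if_neg h', if_neg, smul_zero]
        rintro ⟨-, a, b, c⟩
        exact h' ⟨Finset.disjoint_union_left.mpr ⟨a, b⟩, c⟩
    · rw [starB_of_not_disj h, map_zero, LinearMap.zero_apply, if_neg]
      rintro ⟨a, -⟩
      exact h a
  rw [key, key, key]
  by_cases h : Disjoint I J ∧ Disjoint I K ∧ Disjoint J K ∧ I ∪ J ∪ K = M
  · obtain ⟨hIJ, hIK, hJK, hM⟩ := h
    have hM2 : J ∪ K ∪ I = M := by rw [← hM, Finset.union_comm _ I, Finset.union_assoc]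
    have hM3 : K ∪ I ∪ J = M := by
      rw [← hM, Finset.union_comm K I, Finset.union_assoc, Finset.union_assoc,
        Finset.union_comm K J]
    rw [if_pos ⟨hIJ, hIK, hJK, hM⟩, if_pos ⟨hJK, hIJ.symm, hIK.symm, hM2⟩,
      if_pos ⟨hIK.symm, hJK.symm, hIJ, hM3⟩]
    · have hc : I.card + J.card + K.card = M.card := by
        rw [← hM, Finset.card_union_of_disjoint (Finset.disjoint_union_left.mpr ⟨hIK, hJK⟩),
          Finset.card_union_of_disjoint hIJ]
      have ht := th_cyc (F := F) I.card J.card K.card M.card hc hodd h2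
      rw [ss_comm hIJ, ss_comm hIK, ss_comm hJK]
      have p : ∀ n : ℕ, ((-1 : F) ^ n) * (-1) ^ n = 1 := by
        intro n; rw [← mul_pow]; simp
      linear_combination (ss F I J * ss F I K * ss F J K) * ht
  · rw [if_neg h, if_neg, if_neg]
    · simp
    · rintro ⟨a, b, c, d⟩
      apply h
      refine ⟨c, a.symm, b.symm, ?_⟩
      rw [← d, Finset.union_comm K I, Finset.union_assoc, Finset.union_assoc,
        Finset.union_comm K J]
    · rintro ⟨a, b, c, d⟩
      apply h
      refine ⟨b.symm, c.symm, a, ?_⟩
      rw [← d, Finset.union_comm _ I, Finset.union_assoc]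

end Model

end Pool.Agent.MP_e7684b_al
end

section

/-!
# The explicit models, end

Auxiliary file for MP_e7684b_al.
-/

namespace Pool.Agent.MP_e7684b_al

universe u

open Finsupp

variable (F : Type u) [Field F] [CharP F 3]

/-- The model number `j`. -/
noncomputable def mdl (j : ℕ) :
    Data F (ℕ →₀ F) (Finset ℕ →₀ F) (Finset ℕ →₀ F) where
  act := bil (actB F)
  star := bil (starB F)
  ws := bil (wsB F)
  pair := bil (pairB F (Finset.Icc 1 (11 + 6 * j)))
  act_anti a b u := by
    rw [eq_neg_iff_add_eq_zero]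
    revert a
    refine lin_ind _ (fun x y => ?_) (fun r x => ?_) fun i => ?_
    · simp only [map_add, LinearMap.add_apply]; abel
    · simp only [map_smul, LinearMap.smul_apply, smul_add]
    revert b
    refine lin_ind _ (fun x y => ?_) (fun r x => ?_) fun j => ?_
    · simp only [map_add, LinearMap.add_apply]; abel
    · simp only [map_smul, LinearMap.smul_apply, smul_add]
    revert u
    refine lin_ind _ (fun x y => ?_) (fun r x => ?_) fun I => ?_
    · simp only [map_add]; abel
    · simp only [map_smul, smul_add]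
    rw [bil_single_one, bil_single_one]
    exact act_anti_basis i j I
  ws_anti a b u := by
    rw [eq_neg_iff_add_eq_zero]
    revert a
    refine lin_ind _ (fun x y => ?_) (fun r x => ?_) fun i => ?_
    · simp only [map_add, LinearMap.add_apply]; abel
    · simp only [map_smul, LinearMap.smul_apply, smul_add]
    revert b
    refine lin_ind _ (fun x y => ?_) (fun r x => ?_) fun j => ?_
    · simp only [map_add, LinearMap.add_apply]; abel
    · simp only [map_smul, LinearMap.smul_apply, smul_add]
    revert u
    refine lin_ind _ (fun x y => ?_) (fun r x => ?_) fun I => ?_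
    · simp only [map_add]; abel
    · simp only [map_smul, smul_add]
    rw [bil_single_one, bil_single_one]
    exact ws_anti_basis i j I
  star_comm u v := by
    rw [← sub_eq_zero]
    revert u
    refine lin_ind _ (fun x y => ?_) (fun r x => ?_) fun i => ?_
    · simp only [map_add, LinearMap.add_apply]; abel
    · simp only [map_smul, LinearMap.smul_apply, smul_sub]
    revert v
    refine lin_ind _ (fun x y => ?_) (fun r x => ?_) fun j => ?_
    · simp only [map_add, LinearMap.add_apply]; abel
    · simp only [map_smul, LinearMap.smul_apply, smul_sub]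
    rw [bil_single_one, bil_single_one]
    exact star_comm_basis i j
  j2 l u v := by
    revert l
    refine lin_ind _ (fun x y => ?_) (fun r x => ?_) fun i => ?_
    · simp only [map_add, LinearMap.add_apply]; abel
    · simp only [map_smul, LinearMap.smul_apply, smul_add]
    revert u
    refine lin_ind _ (fun x y => ?_) (fun r x => ?_) fun I => ?_
    · simp only [map_add, LinearMap.add_apply]; abel
    · simp only [map_smul, LinearMap.smul_apply, smul_add]
    revert v
    refine lin_ind _ (fun x y => ?_) (fun r x => ?_) fun J => ?_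
    · simp only [map_add]; abel
    · simp only [map_smul, smul_add]
    rw [bil_single_one, bil_single_one, bil_single_one]
    exact j2_basis i I J
  j2' l w u := by
    revert l
    refine lin_ind _ (fun x y => ?_) (fun r x => ?_) fun i => ?_
    · simp only [map_add, LinearMap.add_apply]; abel
    · simp only [map_smul, LinearMap.smul_apply, smul_add]
    revert w
    refine lin_ind _ (fun x y => ?_) (fun r x => ?_) fun I => ?_
    · simp only [map_add, LinearMap.add_apply]; abel
    · simp only [map_smul, LinearMap.smul_apply, smul_add]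
    revert u
    refine lin_ind _ (fun x y => ?_) (fun r x => ?_) fun J => ?_
    · simp only [map_add]; abel
    · simp only [map_smul, smul_add]
    rw [bil_single_one, bil_single_one]
    exact j2'_basis _ i I J
  j1 u v x := by
    revert u
    refine lin_ind _ (fun x y => ?_) (fun r x => ?_) fun I => ?_
    · simp only [map_add, LinearMap.add_apply]; abel
    · simp only [map_smul, LinearMap.smul_apply, smul_add]
    revert v
    refine lin_ind _ (fun x y => ?_) (fun r x => ?_) fun J => ?_
    · simp only [map_add, LinearMap.add_apply]; abel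
    · simp only [map_smul, LinearMap.smul_apply, smul_add]
    revert x
    refine lin_ind _ (fun x y => ?_) (fun r x => ?_) fun K => ?_
    · simp only [map_add, LinearMap.add_apply]; abel
    · simp only [map_smul, LinearMap.smul_apply, smul_add]
    rw [bil_single_one, bil_single_one, bil_single_one]
    refine j1_basis _ ?_ ?_ I J K
    · rw [Nat.card_Icc, Nat.odd_iff]; omega
    · rw [Nat.card_Icc]
      have h3 : (3 : F) = 0 := three_eq_zero
      have : 11 + 6 * j + 1 - 1 = 11 + 6 * j := by omega
      rw [this]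
      push_cast
      linear_combination (3 + 2 * (j : F)) * h3

variable {F}

theorem act_single_one (j i : ℕ) (I : Finset ℕ) (h : i ∉ I) :
    (mdl F j).act (single i 1) (single I 1) = sg F i I • single (insert i I) 1 := by
  change bil (actB F) _ _ = _
  rw [bil_single_one, actB_of_not_mem h]

/-- The cubic form only depends on the coefficient of the empty set. -/
theorem cube_formula (j : ℕ) (T : (Finset ℕ →₀ F) → (Finset ℕ →₀ F) → (Finset ℕ →₀ F) → F)
    (h : Good (mdl F j).act T) (u : Finset ℕ →₀ F) :
    T u u u = u ∅ ^ 3 * T (single ∅ 1) (single ∅ 1) (single ∅ 1) := by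
  have h3 : (3 : F) = 0 := three_eq_zero
  induction u using Finsupp.induction_linear with
  | zero =>
    have := h.cube_smul 0 0
    simpa using this
  | add a b ha hb =>
    rw [h.cube_add, ha, hb, Finsupp.add_apply]
    linear_combination (-(a ∅) ^ 2 * b ∅ - a ∅ * (b ∅) ^ 2) *
      T (single ∅ 1) (single ∅ 1) (single ∅ 1) * h3
  | single I r =>
    rcases I.eq_empty_or_nonempty with hI | ⟨i, hi⟩
    · subst hI
      have e : (single ∅ r : Finset ℕ →₀ F) = r • single ∅ 1 := by simp
      rw [e, h.cube_smul]
      simp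
    · have e : (single I r : Finset ℕ →₀ F) =
        (r * (sg F i (I.erase i))⁻¹) • (mdl F j).act (single i 1) (single (I.erase i) 1) := by
        rw [act_single_one j i (I.erase i) (Finset.notMem_erase i I), Finset.insert_erase hi,
          smul_smul, mul_assoc, inv_mul_cancel₀ (sg_ne_zero _ _), mul_one]
        simp
      have hne : I ≠ ∅ := Finset.ne_empty_of_mem hi
      have hz : (single I r : Finset ℕ →₀ F) ∅ = 0 := by
        rw [Finsupp.single_apply, if_neg hne]
      rw [hz, e, h.cube_smul, h.cube_act]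
      ring

/-- homogeneous elements -/
noncomputable def homog (n : ℕ) : Submodule F (Finset ℕ →₀ F) :=
  Submodule.span F ((fun I => (single I 1 : Finset ℕ →₀ F)) '' {I | I.card = n})

omit [CharP F 3] in
theorem single_mem_homog (I : Finset ℕ) : (single I 1 : Finset ℕ →₀ F) ∈ homog (F := F) I.card :=
  Submodule.subset_span ⟨I, rfl, rfl⟩

theorem act_homog (j n : ℕ) (l : ℕ →₀ F) (u : Finset ℕ →₀ F) (hu : u ∈ homog (F := F) n) :
    (mdl F j).act l u ∈ homog (F := F) (n + 1) := by
  induction l using Finsupp.induction_linear with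
  | zero => simp
  | add a b ha hb => rw [map_add, LinearMap.add_apply]; exact Submodule.add_mem _ ha hb
  | single i r =>
    refine Submodule.span_induction (p := fun u _ => (mdl F j).act (single i r) u ∈
      homog (F := F) (n + 1)) ?_ ?_ ?_ ?_ hu
    · rintro _ ⟨I, hI, rfl⟩
      change bil (actB F) _ _ ∈ _
      simp only [bil_single]
      apply Submodule.smul_mem
      by_cases h : i ∈ I
      · rw [actB_of_mem h]; exact Submodule.zero_mem _
      · rw [actB_of_not_mem h]
        apply Submodule.smul_mem
        have hI' : I.card = n := hI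
        have := single_mem_homog (F := F) (insert i I)
        rwa [Finset.card_insert_of_notMem h, hI'] at this
    · simp
    · intro x y _ _ hx hy; rw [map_add]; exact Submodule.add_mem _ hx hy
    · intro r x _ hx; rw [map_smul]; exact Submodule.smul_mem _ _ hx

theorem tau_homog (j a b c : ℕ) (habc : a + b + c ≠ 11 + 6 * j) (x y z : Finset ℕ →₀ F)
    (hx : x ∈ homog (F := F) a) (hy : y ∈ homog (F := F) b) (hz : z ∈ homog (F := F) c) :
    (mdl F j).tau x y z = 0 := by
  refine Submodule.span_induction (p := fun x _ => (mdl F j).tau x y z = 0) ?_ ?_ ?_ ?_ hx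
  · rintro _ ⟨I, hI, rfl⟩
    refine Submodule.span_induction (p := fun y _ => (mdl F j).tau (single I 1) y z = 0)
      ?_ ?_ ?_ ?_ hy
    · rintro _ ⟨J, hJ, rfl⟩
      refine Submodule.span_induction
        (p := fun z _ => (mdl F j).tau (single I 1) (single J 1) z = 0) ?_ ?_ ?_ ?_ hz
      · rintro _ ⟨K, hK, rfl⟩
        change bil _ (bil _ _ _) _ = _
        simp only [bil_single_one]
        by_cases h : Disjoint I J
        · rw [starB_of_disj h, map_smul, LinearMap.smul_apply, bil_single_one, pairB, if_neg,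
            smul_zero]
          rintro ⟨h1, h2⟩
          apply habc
          have h3 := congrArg Finset.card h2
          rw [Finset.card_union_of_disjoint h1, Finset.card_union_of_disjoint h,
            Nat.card_Icc] at h3
          have hI' : I.card = a := hI
          have hJ' : J.card = b := hJ
          have hK' : K.card = c := hK
          omega
        · rw [starB_of_not_disj h, map_zero, LinearMap.zero_apply]
      · simp [Data.tau]
      · intro x y _ _ hx hy; unfold Data.tau at *; rw [map_add, hx, hy, add_zero]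
      · intro r x _ hx; unfold Data.tau at *; rw [map_smul, hx, smul_zero]
    · simp [Data.tau]
    · intro x y _ _ hx hy; unfold Data.tau at *
      rw [map_add, map_add, LinearMap.add_apply, hx, hy, add_zero]
    · intro r x _ hx; unfold Data.tau at *
      rw [map_smul, map_smul, LinearMap.smul_apply, hx, smul_zero]
  · simp [Data.tau]
  · intro x y _ _ hx hy; unfold Data.tau at *
    rw [map_add, LinearMap.add_apply, map_add, LinearMap.add_apply, hx, hy, add_zero]
  · intro r x _ hx; unfold Data.tau at *
    rw [map_smul, LinearMap.smul_apply, map_smul, LinearMap.smul_apply, hx, smul_zero]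

theorem Th_homog (j : ℕ) (β : ℕ → (ℕ →₀ F)) (k : ℕ) : ∀ (a b c : ℕ)
    (_ : a + b + c + 5 + 6 * k ≠ 11 + 6 * j) (x y z : Finset ℕ →₀ F)
    (_ : x ∈ homog (F := F) a) (_ : y ∈ homog (F := F) b) (_ : z ∈ homog (F := F) c),
    (mdl F j).Th β k x y z = 0 := by
  induction k with
  | zero =>
    intro a b c h x y z hx hy hz
    exact tau_homog j (a + 1 + 1) (b + 1 + 1) (c + 1) (by omega) _ _ _
      (act_homog _ _ _ _ (act_homog _ _ _ _ hx)) (act_homog _ _ _ _ (act_homog _ _ _ _ hy))
      (act_homog _ _ _ _ hz)
  | succ k ih =>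
    intro a b c h x y z hx hy hz
    exact ih (a + 1 + 1) (b + 1 + 1) (c + 1 + 1) (by omega) _ _ _
      (act_homog _ _ _ _ (act_homog _ _ _ _ hx)) (act_homog _ _ _ _ (act_homog _ _ _ _ hy))
      (act_homog _ _ _ _ (act_homog _ _ _ _ hz))

/-- The identity number `k` holds in the model number `j` when `k ≠ j`. -/
theorem ff_eq_zero (j k : ℕ) (hjk : k ≠ j) (v : ℕ → Alg (mdl F j)) : ff v k = 0 := by
  rw [Alg.ff_eval]
  have h := (mdl F j).Th'_good (fun i => (v i).pe) k
  rw [cube_formula j _ h]
  have h0 : (mdl F j).Th' (fun i => (v i).pe) k (single ∅ 1) (single ∅ 1) (single ∅ 1) = 0 := by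
    have hs : (single ∅ 1 : Finset ℕ →₀ F) ∈ homog (F := F) 0 := by
      have := single_mem_homog (F := F) ∅
      simpa using this
    exact Th_homog j _ k (0 + 1 + 1) (0 + 1 + 1) (0 + 1 + 1) (by omega) _ _ _
      (act_homog _ _ _ _ (act_homog _ _ _ _ hs)) (act_homog _ _ _ _ (act_homog _ _ _ _ hs))
      (act_homog _ _ _ _ (act_homog _ _ _ _ hs))
  rw [h0, mul_zero]
  rfl

/-- nonzero multiples of basis vectors -/
def NZ (x : Finset ℕ →₀ F) (I : Finset ℕ) : Prop := ∃ r : F, r ≠ 0 ∧ x = r • single I 1

theorem NZ.act {x : Finset ℕ →₀ F} {I : Finset ℕ} (h : NZ x I) (j i : ℕ) (hi : i ∉ I) :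
    NZ ((mdl F j).act (single i 1) x) (insert i I) := by
  obtain ⟨r, hr, rfl⟩ := h
  refine ⟨r * sg F i I, mul_ne_zero hr (sg_ne_zero _ _), ?_⟩
  rw [map_smul, act_single_one j i I hi, smul_smul]

theorem tau_ne_zero (j : ℕ) {x y z : Finset ℕ →₀ F} {I J K : Finset ℕ} (hx : NZ x I)
    (hy : NZ y J) (hz : NZ z K) (hI : Even I.card) (hJ : Even J.card) (hIJ : Disjoint I J)
    (hK : Disjoint (I ∪ J) K) (hu : I ∪ J ∪ K = Finset.Icc 1 (11 + 6 * j)) :
    (mdl F j).tau x y z ≠ 0 := by
  obtain ⟨r, hr, rfl⟩ := hx
  obtain ⟨s, hs, rfl⟩ := hy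
  obtain ⟨t, ht, rfl⟩ := hz
  have : (mdl F j).tau (r • single I 1) (s • single J 1) (t • single K 1) =
      t * (s * (r * ((ss F I J * th F I.card J.card) * ss F (I ∪ J) K))) := by
    change bil _ (bil _ _ _) _ = _
    simp only [map_smul, LinearMap.smul_apply, bil_single_one, starB_of_disj hIJ, smul_eq_mul]
    rw [pairB, if_pos ⟨hK, hu⟩]
  rw [this]
  refine mul_ne_zero ht (mul_ne_zero hs (mul_ne_zero hr (mul_ne_zero (mul_ne_zero
    (ss_ne_zero _ _) ?_) (ss_ne_zero _ _))))
  unfold th
  rw [if_pos hI, if_pos hJ]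
  simp

theorem Th_ne_zero (j : ℕ) (k : ℕ) : ∀ (x y z : Finset ℕ →₀ F) (I J K : Finset ℕ)
    (_ : k ≤ j) (_ : NZ x I) (_ : NZ y J) (_ : NZ z K) (_ : Even I.card) (_ : Even J.card)
    (_ : Disjoint I J) (_ : Disjoint I K) (_ : Disjoint J K)
    (_ : ∀ n, (n ∈ I ∨ n ∈ J ∨ n ∈ K) ↔ (1 ≤ n ∧ n ≤ 11 + 6 * j ∧ ¬ (7 ≤ n ∧ n ≤ 11 + 6 * k))),
    (mdl F j).Th (fun i => single i 1) k x y z ≠ 0 := by
  induction k with
  | zero =>
    intro x y z I J K hk hx hy hz hI hJ dIJ dIK dJK hall
    have nI : ∀ n, 7 ≤ n → n ≤ 11 → n ∉ I := fun n h1 h2 h3 =>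
      ((hall n).mp (Or.inl h3)).2.2 ⟨h1, by omega⟩
    have nJ : ∀ n, 7 ≤ n → n ≤ 11 → n ∉ J := fun n h1 h2 h3 =>
      ((hall n).mp (Or.inr (Or.inl h3))).2.2 ⟨h1, by omega⟩
    have nK : ∀ n, 7 ≤ n → n ≤ 11 → n ∉ K := fun n h1 h2 h3 =>
      ((hall n).mp (Or.inr (Or.inr h3))).2.2 ⟨h1, by omega⟩
    have i7 := nI 7 (by omega) (by omega)
    have i8 : 8 ∉ insert 7 I := by
      simp [nI 8 (by omega) (by omega)]
    have j9 := nJ 9 (by omega) (by omega)
    have j10 : 10 ∉ insert 9 J := by
      simp [nJ 10 (by omega) (by omega)]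
    have k11 := nK 11 (by omega) (by omega)
    rw [Data.Th]
    refine tau_ne_zero j (NZ.act (NZ.act hx j 7 i7) j 8 i8) (NZ.act (NZ.act hy j 9 j9) j 10 j10)
      (NZ.act hz j 11 k11) ?_ ?_ ?_ ?_ ?_
    · rw [Finset.card_insert_of_notMem i8, Finset.card_insert_of_notMem i7]
      exact hI.add_one.add_one
    · rw [Finset.card_insert_of_notMem j10, Finset.card_insert_of_notMem j9]
      exact hJ.add_one.add_one
    · simp [dIJ, nI, nJ]
    · simp [dIK, dJK, nI, nJ, nK]
    · ext n
      simp only [Finset.mem_union, Finset.mem_insert, Finset.mem_Icc]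
      have := hall n
      constructor
      · rintro (((h | h | h) | (h | h | h)) | (h | h))
        · omega
        · omega
        · exact ⟨(this.mp (Or.inl h)).1, (this.mp (Or.inl h)).2.1⟩
        · omega
        · omega
        · exact ⟨(this.mp (Or.inr (Or.inl h))).1, (this.mp (Or.inr (Or.inl h))).2.1⟩
        · omega
        · exact ⟨(this.mp (Or.inr (Or.inr h))).1, (this.mp (Or.inr (Or.inr h))).2.1⟩
      · rintro ⟨h1, h2⟩
        by_cases h : 7 ≤ n ∧ n ≤ 11
        · have : n = 7 ∨ n = 8 ∨ n = 9 ∨ n = 10 ∨ n = 11 := by omega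
          tauto
        · have := this.mpr ⟨h1, h2, by simpa using h⟩
          tauto
  | succ k ih =>
    intro x y z I J K hk hx hy hz hI hJ dIJ dIK dJK hall
    have nI : ∀ n, 7 ≤ n → n ≤ 17 + 6 * k → n ∉ I := fun n h1 h2 h3 =>
      ((hall n).mp (Or.inl h3)).2.2 ⟨h1, by omega⟩
    have nJ : ∀ n, 7 ≤ n → n ≤ 17 + 6 * k → n ∉ J := fun n h1 h2 h3 =>
      ((hall n).mp (Or.inr (Or.inl h3))).2.2 ⟨h1, by omega⟩
    have nK : ∀ n, 7 ≤ n → n ≤ 17 + 6 * k → n ∉ K := fun n h1 h2 h3 =>
      ((hall n).mp (Or.inr (Or.inr h3))).2.2 ⟨h1, by omega⟩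
    have i7 := nI (12 + 6 * k) (by omega) (by omega)
    have i8 : 13 + 6 * k ∉ insert (12 + 6 * k) I := by
      simp [nI (13 + 6 * k) (by omega) (by omega)]
    have j9 := nJ (14 + 6 * k) (by omega) (by omega)
    have j10 : 15 + 6 * k ∉ insert (14 + 6 * k) J := by
      simp [nJ (15 + 6 * k) (by omega) (by omega)]
    have k11 := nK (16 + 6 * k) (by omega) (by omega)
    have k12 : 17 + 6 * k ∉ insert (16 + 6 * k) K := by
      simp [nK (17 + 6 * k) (by omega) (by omega)]
    rw [Data.Th]
    refine ih _ _ _ _ _ _ (by omega) (NZ.act (NZ.act hx j _ i7) j _ i8)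
      (NZ.act (NZ.act hy j _ j9) j _ j10) (NZ.act (NZ.act hz j _ k11) j _ k12) ?_ ?_ ?_ ?_ ?_ ?_
    · rw [Finset.card_insert_of_notMem i8, Finset.card_insert_of_notMem i7]
      exact hI.add_one.add_one
    · rw [Finset.card_insert_of_notMem j10, Finset.card_insert_of_notMem j9]
      exact hJ.add_one.add_one
    · have a1 := nI (14 + 6 * k) (by omega) (by omega)
      have a2 := nI (15 + 6 * k) (by omega) (by omega)
      have a3 := nJ (12 + 6 * k) (by omega) (by omega)
      have a4 := nJ (13 + 6 * k) (by omega) (by omega)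
      simp [dIJ, a1, a2, a3, a4]
    · have a1 := nI (16 + 6 * k) (by omega) (by omega)
      have a2 := nI (17 + 6 * k) (by omega) (by omega)
      have a3 := nK (12 + 6 * k) (by omega) (by omega)
      have a4 := nK (13 + 6 * k) (by omega) (by omega)
      simp [dIK, a1, a2, a3, a4]
    · have a1 := nJ (16 + 6 * k) (by omega) (by omega)
      have a2 := nJ (17 + 6 * k) (by omega) (by omega)
      have a3 := nK (14 + 6 * k) (by omega) (by omega)
      have a4 := nK (15 + 6 * k) (by omega) (by omega)
      simp [dJK, a1, a2, a3, a4]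
    · intro n
      simp only [Finset.mem_insert]
      have := hall n
      constructor
      · rintro ((h | h | h) | (h | h | h) | (h | h | h))
        · omega
        · omega
        · have := this.mp (Or.inl h); omega
        · omega
        · omega
        · have := this.mp (Or.inr (Or.inl h)); omega
        · omega
        · omega
        · have := this.mp (Or.inr (Or.inr h)); omega
      · rintro ⟨h1, h2, h3⟩
        by_cases h : 12 + 6 * k ≤ n ∧ n ≤ 17 + 6 * k
        · have : n = 12 + 6 * k ∨ n = 13 + 6 * k ∨ n = 14 + 6 * k ∨ n = 15 + 6 * k ∨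
            n = 16 + 6 * k ∨ n = 17 + 6 * k := by omega
          rcases this with h | h | h | h | h | h
          · exact Or.inl (Or.inr (Or.inl h))
          · exact Or.inl (Or.inl h)
          · exact Or.inr (Or.inl (Or.inr (Or.inl h)))
          · exact Or.inr (Or.inl (Or.inl h))
          · exact Or.inr (Or.inr (Or.inr (Or.inl h)))
          · exact Or.inr (Or.inr (Or.inl h))
        · rcases this.mpr ⟨h1, h2, by omega⟩ with h | h | h
          · exact Or.inl (Or.inr (Or.inr h))
          · exact Or.inr (Or.inl (Or.inr (Or.inr h)))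
          · exact Or.inr (Or.inr (Or.inr (Or.inr h)))

/-- The identity number `j` fails in the model number `j`. -/
theorem exists_ff_ne_zero (j : ℕ) : ∃ v : ℕ → Alg (mdl F j), ff v j ≠ 0 := by
  refine ⟨fun n => Alg.mk (single n 1) (single ∅ 1) 0 0, ?_⟩
  rw [Alg.ff_eval]
  intro h
  have h' := congrArg Alg.pc h
  simp only [Alg.pc_mk, Alg.pc_zero] at h'
  revert h'
  change (mdl F j).Th' (fun i => single i 1) j (single ∅ 1) (single ∅ 1) (single ∅ 1) ≠ 0
  have h0 : NZ (single ∅ 1 : Finset ℕ →₀ F) ∅ := ⟨1, one_ne_zero, by simp⟩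
  have n4 : 4 ∉ insert 1 (∅ : Finset ℕ) := by decide
  have n5 : 5 ∉ insert 2 (∅ : Finset ℕ) := by decide
  have n6 : 6 ∉ insert 3 (∅ : Finset ℕ) := by decide
  refine Th_ne_zero j j _ _ _ _ _ _ le_rfl
    (NZ.act (NZ.act h0 j 1 (Finset.notMem_empty _)) j 4 n4)
    (NZ.act (NZ.act h0 j 2 (Finset.notMem_empty _)) j 5 n5)
    (NZ.act (NZ.act h0 j 3 (Finset.notMem_empty _)) j 6 n6) ?_ ?_ ?_ ?_ ?_ ?_
  · decide
  · decide
  · decide
  · decide
  · decide
  · intro n
    simp only [Finset.mem_insert, Finset.notMem_empty, or_false]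
    omega

end Pool.Agent.MP_e7684b_al
end

section

/-!
# The variety

Auxiliary file for MP_e7684b_al.
-/

namespace Pool.Agent.MP_e7684b_al

universe u

open FreeNonUnitalNonAssocAlgebra

section Basic

variable {F : Type u} [Field F] {A : Type u} [NonUnitalNonAssocRing A] [Module F A]
  [IsScalarTower F A A] [SMulCommClass F A A]

theorem span_mul_zero (s t : Set A) (h : ∀ x ∈ s, ∀ y ∈ t, x * y = 0) :
    ∀ x ∈ Submodule.span F s, ∀ y ∈ Submodule.span F t, x * y = 0 := by
  intro x hx y hy
  induction hx using Submodule.span_induction with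
  | mem x hx =>
    induction hy using Submodule.span_induction with
    | mem y hy => exact h x hx y hy
    | zero => exact mul_zero _
    | add y y' _ _ h1 h2 => rw [mul_add, h1, h2, add_zero]
    | smul r y _ h1 => rw [mul_smul_comm, h1, smul_zero]
  | zero => exact zero_mul _
  | add x x' _ _ h1 h2 => rw [add_mul, h1, h2, add_zero]
  | smul r x _ h1 => rw [smul_mul_assoc, h1, smul_zero]

theorem derived_three (h : ∀ a b c d a' b' c' d' : A,
    ((a * b) * (c * d)) * ((a' * b') * (c' * d')) = 0) : derivedSer F A 3 = ⊥ := by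
  -- products of elements of the first derived subspace
  have gen : ∀ z : A, (∀ a b c d : A, z * ((a * b) * (c * d)) = 0) →
      ∀ y ∈ derivedSer F A 2, z * y = 0 := by
    intro z hz
    have step1 : ∀ p ∈ derivedSer F A 1, ∀ a b : A, z * ((a * b) * p) = 0 := by
      intro p hp a b
      refine Submodule.span_induction (p := fun p _ => z * ((a * b) * p) = 0) ?_ ?_ ?_ ?_ hp
      · rintro _ ⟨c, -, d, -, rfl⟩
        exact hz a b c d
      · simp
      · intro x y _ _ hx hy; rw [mul_add, mul_add, hx, hy, add_zero]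
      · intro r x _ hx; rw [mul_smul_comm, mul_smul_comm, hx, smul_zero]
    have step2 : ∀ p ∈ derivedSer F A 1, ∀ q ∈ derivedSer F A 1, z * (q * p) = 0 := by
      intro p hp q hq
      refine Submodule.span_induction (p := fun q _ => z * (q * p) = 0) ?_ ?_ ?_ ?_ hq
      · rintro _ ⟨c, -, d, -, rfl⟩
        exact step1 p hp c d
      · simp
      · intro x y _ _ hx hy; rw [add_mul, mul_add, hx, hy, add_zero]
      · intro r x _ hx; rw [smul_mul_assoc, mul_smul_comm, hx, smul_zero]
    intro y hy
    refine Submodule.span_induction (p := fun y _ => z * y = 0) ?_ ?_ ?_ ?_ hy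
    · rintro _ ⟨c, hc, d, hd, rfl⟩
      exact step2 d hd c hc
    · simp
    · intro x y _ _ hx hy; rw [mul_add, hx, hy, add_zero]
    · intro r x _ hx; rw [mul_smul_comm, hx, smul_zero]
  have gen2 : ∀ y ∈ derivedSer F A 2, ∀ z ∈ derivedSer F A 2, z * y = 0 := by
    intro y hy
    have h0 : ∀ a b c d : A, ((a * b) * (c * d)) * y = 0 := fun a b c d =>
      gen _ (fun a' b' c' d' => h a b c d a' b' c' d') y hy
    have step1 : ∀ p ∈ derivedSer F A 1, ∀ a b : A, ((a * b) * p) * y = 0 := by
      intro p hp a b
      refine Submodule.span_induction (p := fun p _ => ((a * b) * p) * y = 0) ?_ ?_ ?_ ?_ hp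
      · rintro _ ⟨c, -, d, -, rfl⟩
        exact h0 a b c d
      · simp
      · intro x y _ _ hx hy; rw [mul_add, add_mul, hx, hy, add_zero]
      · intro r x _ hx; rw [mul_smul_comm, smul_mul_assoc, hx, smul_zero]
    have step2 : ∀ p ∈ derivedSer F A 1, ∀ q ∈ derivedSer F A 1, (q * p) * y = 0 := by
      intro p hp q hq
      refine Submodule.span_induction (p := fun q _ => (q * p) * y = 0) ?_ ?_ ?_ ?_ hq
      · rintro _ ⟨c, -, d, -, rfl⟩
        exact step1 p hp c d
      · simp
      · intro x y _ _ hx hy; rw [add_mul, add_mul, hx, hy, add_zero]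
      · intro r x _ hx; rw [smul_mul_assoc, smul_mul_assoc, hx, smul_zero]
    intro z hz
    refine Submodule.span_induction (p := fun z _ => z * y = 0) ?_ ?_ ?_ ?_ hz
    · rintro _ ⟨c, hc, d, hd, rfl⟩
      exact step2 d hd c hc
    · simp
    · intro x y _ _ hx hy; rw [add_mul, hx, hy, add_zero]
    · intro r x _ hx; rw [smul_mul_assoc, hx, smul_zero]
  rw [derivedSer, Submodule.span_eq_bot]
  rintro _ ⟨x, hx, y, hy, rfl⟩
  exact gen2 y hy x hx

end Basic

section Maps

variable {A B : Type*}

theorem map_TT [Mul A] [Mul B] (φ : A → B) (h : ∀ x y, φ (x * y) = φ x * φ y) (v : ℕ → A)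
    (k : ℕ) : ∀ a b c, φ (TT v k a b c) = TT (fun n => φ (v n)) k (φ a) (φ b) (φ c) := by
  induction k with
  | zero => intro a b c; simp only [TT, h]
  | succ k ih => intro a b c; simp only [TT, ih, h]

theorem map_ff [Mul A] [Sub A] [Mul B] [Sub B] (φ : A → B) (h : ∀ x y, φ (x * y) = φ x * φ y)
    (hs : ∀ x y, φ (x - y) = φ x - φ y) (v : ℕ → A) (k : ℕ) :
    φ (ff v k) = ff (fun n => φ (v n)) k := by
  simp only [ff, PP, hs, map_TT φ h, h]

end Maps

section TheSet

variable (F : Type u) [Field F]

/-- commutativity -/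
noncomputable def pcom : FreeNonUnitalNonAssocAlgebra F ℕ := of F 0 * of F 1 - of F 1 * of F 0
/-- left alternativity -/
noncomputable def palt : FreeNonUnitalNonAssocAlgebra F ℕ :=
  (of F 0 * of F 0) * of F 1 - of F 0 * (of F 0 * of F 1)
/-- solvability -/
noncomputable def psol : FreeNonUnitalNonAssocAlgebra F ℕ :=
  ((of F 0 * of F 1) * (of F 2 * of F 3)) * ((of F 4 * of F 5) * (of F 6 * of F 7))

/-- The defining identities. -/
def SS : Set (FreeNonUnitalNonAssocAlgebra F ℕ) :=
  {pcom F, palt F, psol F} ∪ Set.range (fun k => ff (of F) k)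

variable {F} {A : Type u} [NonUnitalNonAssocRing A] [Module F A]
  [IsScalarTower F A A] [SMulCommClass F A A]

theorem models_SS_iff : Models F (SS F) A ↔ (∀ x y : A, x * y = y * x) ∧
    (∀ x y : A, (x * x) * y = x * (x * y)) ∧
    (∀ a b c d a' b' c' d' : A, ((a * b) * (c * d)) * ((a' * b') * (c' * d')) = 0) ∧
    ∀ k, ∀ v : ℕ → A, ff v k = 0 := by
  have key : ∀ k, ∀ v : ℕ → A, FreeNonUnitalNonAssocAlgebra.lift F v (ff (of F) k) = ff v k := by
    intro k v
    rw [map_ff (fun p => FreeNonUnitalNonAssocAlgebra.lift F v p) (fun x y => map_mul _ x y)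
      (fun x y => map_sub _ x y)]
    simp
  constructor
  · intro h
    refine ⟨fun x y => ?_, fun x y => ?_, fun a b c d a' b' c' d' => ?_, fun k v => ?_⟩
    · have := h (pcom F) (by simp [SS]) (fun n => if n = 0 then x else y)
      simpa [pcom, sub_eq_zero] using this
    · have := h (palt F) (by simp [SS]) (fun n => if n = 0 then x else y)
      simpa [palt, sub_eq_zero] using this
    · have := h (psol F) (by simp [SS]) (fun n => if n = 0 then a else if n = 1 then b else
        if n = 2 then c else if n = 3 then d else if n = 4 then a' else if n = 5 then b' else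
        if n = 6 then c' else d')
      simpa [psol] using this
    · rw [← key]
      exact h _ (Or.inr ⟨k, rfl⟩) v
  · rintro ⟨h1, h2, h3, h4⟩ p hp v
    rcases hp with (hp | hp | hp) | ⟨k, rfl⟩
    · subst hp; simp [pcom, h1 (v 0) (v 1)]
    · subst hp; simp [palt, h2 (v 0) (v 1)]
    · have hp' : p = psol F := hp
      subst hp'; simp [psol, h3]
    · simp only [key, h4]

end TheSet

end Pool.Agent.MP_e7684b_al
end

section

/-!
# Reduced products

Auxiliary file for MP_e7684b_al.
-/

namespace Pool.Agent.MP_e7684b_al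

universe u

open FreeNonUnitalNonAssocAlgebra Filter

section Quot

variable {F : Type u} [Field F] {P : Type u} [NonUnitalNonAssocRing P] [Module F P]
  [IsScalarTower F P P] [SMulCommClass F P P]

/-- two-sided ideals -/
structure IsIdl (N : Submodule F P) : Prop where
  left : ∀ x y, y ∈ N → x * y ∈ N
  right : ∀ x y, x ∈ N → x * y ∈ N

/-- quotient algebra -/
def QA (N : Submodule F P) (_h : IsIdl N) : Type u := P ⧸ N

namespace QA

variable {N : Submodule F P} {h : IsIdl N}

instance : AddCommGroup (QA N h) := inferInstanceAs (AddCommGroup (P ⧸ N))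

instance : Module F (QA N h) := inferInstanceAs (Module F (P ⧸ N))

/-- the projection -/
def mk (x : P) : QA N h := Submodule.Quotient.mk x

theorem mk_surj : Function.Surjective (mk : P → QA N h) := Submodule.Quotient.mk_surjective N

theorem mk_add (x y : P) : (mk (x + y) : QA N h) = mk x + mk y := rfl
theorem mk_smul (r : F) (x : P) : (mk (r • x) : QA N h) = r • mk x := rfl
theorem mk_zero : (mk 0 : QA N h) = 0 := rfl
theorem mk_eq_zero (x : P) : (mk x : QA N h) = 0 ↔ x ∈ N := Submodule.Quotient.mk_eq_zero N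

instance : Mul (QA N h) where
  mul := Quotient.map₂ (· * ·) (by
    intro a a' ha b b' hb
    have ha' : a - a' ∈ N := (Submodule.quotientRel_def N).mp ha
    have hb' : b - b' ∈ N := (Submodule.quotientRel_def N).mp hb
    refine (Submodule.quotientRel_def N).mpr ?_
    have e : a * b - a' * b' = (a - a') * b + a' * (b - b') := by
      rw [sub_mul, mul_sub]; abel
    rw [e]
    exact N.add_mem (h.right _ _ ha') (h.left _ _ hb'))

theorem mk_mul (x y : P) : (mk (x * y) : QA N h) = mk x * mk y := rfl

instance : NonUnitalNonAssocRing (QA N h) where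
  left_distrib x y z := by
    obtain ⟨x, rfl⟩ := mk_surj x
    obtain ⟨y, rfl⟩ := mk_surj y
    obtain ⟨z, rfl⟩ := mk_surj z
    rw [← mk_add, ← mk_mul, ← mk_mul, ← mk_mul, ← mk_add, mul_add]
  right_distrib x y z := by
    obtain ⟨x, rfl⟩ := mk_surj x
    obtain ⟨y, rfl⟩ := mk_surj y
    obtain ⟨z, rfl⟩ := mk_surj z
    rw [← mk_add, ← mk_mul, ← mk_mul, ← mk_mul, ← mk_add, add_mul]
  zero_mul x := by
    obtain ⟨x, rfl⟩ := mk_surj x
    rw [← mk_zero, ← mk_mul, zero_mul]
  mul_zero x := by
    obtain ⟨x, rfl⟩ := mk_surj x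
    rw [← mk_zero, ← mk_mul, mul_zero]

instance : IsScalarTower F (QA N h) (QA N h) where
  smul_assoc r x y := by
    obtain ⟨x, rfl⟩ := mk_surj x
    obtain ⟨y, rfl⟩ := mk_surj y
    simp only [smul_eq_mul]
    rw [← mk_smul, ← mk_mul, ← mk_mul, ← mk_smul, smul_mul_assoc]

instance : SMulCommClass F (QA N h) (QA N h) where
  smul_comm r x y := by
    obtain ⟨x, rfl⟩ := mk_surj x
    obtain ⟨y, rfl⟩ := mk_surj y
    simp only [smul_eq_mul]
    rw [← mk_smul, ← mk_mul, ← mk_mul, ← mk_smul, mul_smul_comm]

/-- the projection as a homomorphism -/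
def mkHom : P →ₙₐ[F] QA N h where
  toFun := mk
  map_smul' r x := mk_smul r x
  map_zero' := mk_zero
  map_add' := mk_add
  map_mul' := mk_mul

theorem lift_mk (v : ℕ → P) (p : FreeNonUnitalNonAssocAlgebra F ℕ) :
    FreeNonUnitalNonAssocAlgebra.lift F (fun n => (mk (v n) : QA N h)) p =
      mk (FreeNonUnitalNonAssocAlgebra.lift F v p) := by
  have : FreeNonUnitalNonAssocAlgebra.lift F (fun n => (mk (v n) : QA N h)) =
      (mkHom (h := h)).comp (FreeNonUnitalNonAssocAlgebra.lift F v) := by
    apply FreeNonUnitalNonAssocAlgebra.hom_ext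
    intro n
    simp only [lift_of_apply, NonUnitalAlgHom.comp_apply]
    rfl
  rw [this]
  rfl

end QA

end Quot

section Prod

variable {F : Type u} [Field F] (A : ℕ → Type u) [∀ j, NonUnitalNonAssocRing (A j)]
  [∀ j, Module F (A j)] [∀ j, IsScalarTower F (A j) (A j)] [∀ j, SMulCommClass F (A j) (A j)]

/-- evaluation at one coordinate -/
def evHom (j : ℕ) : (∀ j, A j) →ₙₐ[F] A j where
  toFun x := x j
  map_smul' _ _ := rfl
  map_zero' := rfl
  map_add' _ _ := rfl
  map_mul' _ _ := rfl

theorem lift_pi (v : ℕ → ∀ j, A j) (p : FreeNonUnitalNonAssocAlgebra F ℕ) (j : ℕ) :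
    FreeNonUnitalNonAssocAlgebra.lift F v p j =
      FreeNonUnitalNonAssocAlgebra.lift F (fun n => v n j) p := by
  have : FreeNonUnitalNonAssocAlgebra.lift F (fun n => v n j) =
      (evHom (F := F) A j).comp (FreeNonUnitalNonAssocAlgebra.lift F v) := by
    apply FreeNonUnitalNonAssocAlgebra.hom_ext
    intro n
    simp only [lift_of_apply, NonUnitalAlgHom.comp_apply]
    rfl
  rw [this]
  rfl

/-- eventually zero sequences -/
def NN : Submodule F (∀ j, A j) where
  carrier := {x | ∀ᶠ j in atTop, x j = 0}
  add_mem' := by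
    intro x y hx hy
    filter_upwards [hx, hy] with j h1 h2
    rw [Pi.add_apply, h1, h2, add_zero]
  zero_mem' := by
    filter_upwards with j
    rfl
  smul_mem' := by
    intro r x hx
    filter_upwards [hx] with j h1
    rw [Pi.smul_apply, h1, smul_zero]

theorem mem_NN (x : ∀ j, A j) : x ∈ NN (F := F) A ↔ ∀ᶠ j in atTop, x j = 0 := Iff.rfl

theorem NN_idl : IsIdl (NN (F := F) A) where
  left x y hy := by
    rw [mem_NN] at hy ⊢
    filter_upwards [hy] with j h1
    rw [Pi.mul_apply, h1, mul_zero]
  right x y hx := by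
    rw [mem_NN] at hx ⊢
    filter_upwards [hx] with j h1
    rw [Pi.mul_apply, h1, zero_mul]

/-- Identities of the reduced product. -/
theorem reduced_iff (T : Set (FreeNonUnitalNonAssocAlgebra F ℕ)) :
    Models F T (QA (NN (F := F) A) (NN_idl A)) ↔
      ∀ p ∈ T, ∀ v : ∀ j, ℕ → A j, ∀ᶠ j in atTop, FreeNonUnitalNonAssocAlgebra.lift F (v j) p = 0 := by
  constructor
  · intro h p hp v
    have := h p hp (fun n => QA.mk (fun j => v j n))
    rw [QA.lift_mk, QA.mk_eq_zero, mem_NN] at this
    filter_upwards [this] with j hj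
    rwa [lift_pi] at hj
  · intro h p hp v
    choose w hw using fun n => QA.mk_surj (v n)
    have hv : v = fun n => QA.mk (w n) := funext fun n => (hw n).symm
    rw [hv, QA.lift_mk, QA.mk_eq_zero, mem_NN]
    filter_upwards [h p hp (fun j n => w n j)] with j hj
    rwa [lift_pi]

/-- If the reduced product satisfies the identity `p`, then all but finitely many factors do. -/
theorem eventually_of_reduced (p : FreeNonUnitalNonAssocAlgebra F ℕ)
    (h : ∀ v : ∀ j, ℕ → A j, ∀ᶠ j in atTop, FreeNonUnitalNonAssocAlgebra.lift F (v j) p = 0) :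
    ∀ᶠ j in atTop, ∀ v : ℕ → A j, FreeNonUnitalNonAssocAlgebra.lift F v p = 0 := by
  classical
  have hex : ∀ j, ∃ w : ℕ → A j, FreeNonUnitalNonAssocAlgebra.lift F w p = 0 →
      ∀ v : ℕ → A j, FreeNonUnitalNonAssocAlgebra.lift F v p = 0 := by
    intro j
    by_cases hj : ∀ v : ℕ → A j, FreeNonUnitalNonAssocAlgebra.lift F v p = 0
    · exact ⟨0, fun _ => hj⟩
    · push Not at hj
      obtain ⟨w, hw⟩ := hj
      exact ⟨w, fun h => absurd h hw⟩
  choose w hw using hex
  filter_upwards [h w] with j hj
  exact hw j hj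

/-- A finite set of identities equivalent to `S` holds in almost all `A j` if each element of `S`
does. -/
theorem finite_basis_eventually (S T : Set (FreeNonUnitalNonAssocAlgebra F ℕ)) (hT : T.Finite)
    (hTS : ∀ (B : Type u) [NonUnitalNonAssocRing B] [Module F B] [IsScalarTower F B B]
      [SMulCommClass F B B], Models F T B ↔ Models F S B)
    (hS : ∀ p ∈ S, ∀ᶠ j in atTop, ∀ v : ℕ → A j, FreeNonUnitalNonAssocAlgebra.lift F v p = 0) :
    ∀ᶠ j in atTop, Models F S (A j) := by
  have h1 : Models F S (QA (NN (F := F) A) (NN_idl A)) := by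
    rw [reduced_iff]
    intro p hp v
    filter_upwards [hS p hp] with j hj
    exact hj (v j)
  have h2 : Models F T (QA (NN (F := F) A) (NN_idl A)) := (hTS _).mpr h1
  rw [reduced_iff] at h2
  have h3 : ∀ᶠ j in atTop, ∀ p ∈ T, ∀ v : ℕ → A j,
      FreeNonUnitalNonAssocAlgebra.lift F v p = 0 := by
    rw [Filter.eventually_all_finite hT]
    intro p hp
    exact eventually_of_reduced A p (h2 p hp)
  filter_upwards [h3] with j hj
  exact (hTS (A j)).mp hj

end Prod

/-- The main theorem. -/
theorem main (F : Type u) [Field F] [CharP F 3] :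
    (∀ (A : Type u) [NonUnitalNonAssocRing A] [Module F A] [IsScalarTower F A A]
      [SMulCommClass F A A], Models F (SS F) A →
        (∀ x y : A, x * y = y * x) ∧
        (∀ x y : A, (x * x) * y = x * (x * y) ∧ (y * x) * x = y * (x * x)) ∧
        derivedSer F A 3 = ⊥) ∧
    ¬ ∃ T : Set (FreeNonUnitalNonAssocAlgebra F ℕ), T.Finite ∧
      ∀ (A : Type u) [NonUnitalNonAssocRing A] [Module F A] [IsScalarTower F A A]
        [SMulCommClass F A A], Models F T A ↔ Models F (SS F) A := by
  constructor
  · intro A _ _ _ _ h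
    rw [models_SS_iff] at h
    obtain ⟨h1, h2, h3, -⟩ := h
    refine ⟨h1, fun x y => ⟨h2 x y, ?_⟩, derived_three h3⟩
    rw [h1 (y * x) x, h1 y x, ← h2, h1 (x * x) y]
  · rintro ⟨T, hT, hTS⟩
    have hmod : ∀ j, ∀ x y : Alg (mdl F j), (x * x) * y = x * (x * y) := by
      intro j x y
      have hJ := Alg.jacobi x x y
      have hc : x * y = y * x := Alg.comm x y
      have hc2 : (x * y) * x = x * (x * y) := Alg.comm _ _
      rw [← hc, hc2] at hJ
      have h3 : (3 : F) = 0 := three_eq_zero
      have h30 : x * (x * y) + x * (x * y) + x * (x * y) = 0 := by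
        have : x * (x * y) + x * (x * y) + x * (x * y) = (3 : F) • (x * (x * y)) := by
          module
        rw [this, h3, zero_smul]
      have : (x * x) * y - x * (x * y) = 0 := by
        have e : (x * x) * y - x * (x * y) = (x * x * y + x * (x * y) + x * (x * y)) -
          (x * (x * y) + x * (x * y) + x * (x * y)) := by abel
        rw [e, hJ, h30, sub_zero]
      exact sub_eq_zero.mp this
    have hsol : ∀ j, ∀ a b c d a' b' c' d' : Alg (mdl F j),
        ((a * b) * (c * d)) * ((a' * b') * (c' * d')) = 0 := by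
      intro j a b c d a' b' c' d'
      apply Alg.ext' <;> simp
    have hev : ∀ᶠ j in atTop, Models F (SS F) (Alg (mdl F j)) := by
      apply finite_basis_eventually (fun j => Alg (mdl F j)) (SS F) T hT hTS
      intro p hp
      rcases hp with (hp | hp | hp) | ⟨k, rfl⟩
      · subst hp
        filter_upwards with j v
        simp [pcom, Alg.comm (v 0) (v 1)]
      · subst hp
        filter_upwards with j v
        simp [palt, hmod]
      · have hp' : p = psol F := hp
        subst hp'
        filter_upwards with j v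
        simp [psol, hsol]
      · filter_upwards [eventually_gt_atTop k] with j hj v
        have := ff_eq_zero j k (by omega) v
        rw [map_ff (fun p => FreeNonUnitalNonAssocAlgebra.lift F v p) (fun x y => map_mul _ x y)
          (fun x y => map_sub _ x y)]
        simpa using this
    obtain ⟨j, hj⟩ := hev.exists
    rw [models_SS_iff] at hj
    obtain ⟨v, hv⟩ := exists_ff_ne_zero (F := F) j
    exact hv (hj.2.2.2 j v)

end Pool.Agent.MP_e7684b_al
end
end
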